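import Pool.Agent.Helper68.QC.Defs

/-!
# Calculus of `∂/∂z`, `∂/∂z̄`
-/

open MeasureTheory Set Filter Topology Complex
open scoped ContDiff ComplexConjugate ENNReal

namespace Pool.Agent.Helper68.QC

variable {f g : ℂ → ℂ} {z : ℂ}

lemma fderiv_eq (f : ℂ → ℂ) (z v : ℂ) : fderiv ℝ f z v = dz f z * v + dzb f z * conj v := by
  have hv : v = v.re • (1 : ℂ) + v.im • I := by
    apply Complex.ext <;> simp
  have h1 : fderiv ℝ f z v = v.re * fderiv ℝ f z 1 + v.im * fderiv ℝ f z I := by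
    conv_lhs => rw [hv]
    rw [map_add, map_smul, map_smul]
    simp
  rw [h1]
  unfold dz dzb
  have h2 : v = v.re + v.im * I := (Complex.re_add_im v).symm
  have h3 : conj v = v.re - v.im * I := by
    apply Complex.ext <;> simp
  rw [h3]
  conv_rhs => rw [h2]
  simp only [add_re, ofReal_re, mul_re, I_re, ofReal_im, I_im, add_im, mul_im]
  push_cast
  linear_combination (v.im * fderiv ℝ f z I) * Complex.I_sq

lemma norm_fderiv_le (f : ℂ → ℂ) (z : ℂ) : ‖fderiv ℝ f z‖ ≤ ‖dz f z‖ + ‖dzb f z‖ := by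
  refine ContinuousLinearMap.opNorm_le_bound _ (by positivity) fun v => ?_
  rw [fderiv_eq]
  refine (norm_add_le _ _).trans ?_
  rw [norm_mul, norm_mul, RCLike.norm_conj]
  ring_nf
  rfl

lemma norm_dz_le (f : ℂ → ℂ) (z : ℂ) : ‖dz f z‖ ≤ ‖fderiv ℝ f z‖ := by
  unfold dz
  rw [norm_div]
  have h1 := (fderiv ℝ f z).le_opNorm 1
  have h2 := (fderiv ℝ f z).le_opNorm I
  have h3 : ‖fderiv ℝ f z 1 - I * fderiv ℝ f z I‖ ≤ ‖fderiv ℝ f z 1‖ + ‖fderiv ℝ f z I‖ := by
    refine (norm_sub_le _ _).trans ?_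
    simp
  simp only [norm_one, mul_one, Complex.norm_I] at h1 h2
  have : ‖(2 : ℂ)‖ = 2 := by simp
  rw [this]
  linarith

lemma norm_dzb_le (f : ℂ → ℂ) (z : ℂ) : ‖dzb f z‖ ≤ ‖fderiv ℝ f z‖ := by
  unfold dzb
  rw [norm_div]
  have h1 := (fderiv ℝ f z).le_opNorm 1
  have h2 := (fderiv ℝ f z).le_opNorm I
  have h3 : ‖fderiv ℝ f z 1 + I * fderiv ℝ f z I‖ ≤ ‖fderiv ℝ f z 1‖ + ‖fderiv ℝ f z I‖ := by
    refine (norm_add_le _ _).trans ?_
    simp
  simp only [norm_one, mul_one, Complex.norm_I] at h1 h2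
  have : ‖(2 : ℂ)‖ = 2 := by simp
  rw [this]
  linarith

lemma det_eq (A : ℂ →L[ℝ] ℂ) : A.det = (A 1).re * (A I).im - (A I).re * (A 1).im := by
  rw [ContinuousLinearMap.det, ← LinearMap.det_toMatrix Complex.basisOneI, Matrix.det_fin_two]
  simp [LinearMap.toMatrix_apply]

lemma det_fderiv (f : ℂ → ℂ) (z : ℂ) :
    (fderiv ℝ f z).det = ‖dz f z‖ ^ 2 - ‖dzb f z‖ ^ 2 := by
  rw [det_eq, fderiv_eq, fderiv_eq, ← Complex.normSq_eq_norm_sq, ← Complex.normSq_eq_norm_sq]
  simp only [Complex.normSq_apply, Complex.add_re, Complex.add_im, Complex.mul_re,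
    Complex.mul_im, map_one, Complex.conj_I, Complex.neg_re, Complex.neg_im,
    Complex.I_re, Complex.I_im, Complex.one_re, Complex.one_im]
  ring

/-- the real linear map `v ↦ p v + q v̄`. -/
noncomputable def lin (p q : ℂ) : ℂ →L[ℝ] ℂ :=
  (ContinuousLinearMap.mul ℝ ℂ p) + (ContinuousLinearMap.mul ℝ ℂ q).comp (Complex.conjCLE : ℂ →L[ℝ] ℂ)

@[simp] lemma lin_apply (p q v : ℂ) : lin p q v = p * v + q * conj v := rfl

lemma fderiv_eq_lin (f : ℂ → ℂ) (z : ℂ) : fderiv ℝ f z = lin (dz f z) (dzb f z) := by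
  ext v
  rw [fderiv_eq, lin_apply]

/-- to compute the derivatives from a Frechet derivative -/
lemma dz_of_has {p q : ℂ} (h : HasFDerivAt f (lin p q) z) : dz f z = p ∧ dzb f z = q := by
  constructor
  · rw [dz, h.fderiv]
    simp
    linear_combination (-(p - q) / 2) * Complex.I_sq
  · rw [dzb, h.fderiv]
    simp
    linear_combination ((p - q) / 2) * Complex.I_sq

lemma has_lin (h : DifferentiableAt ℝ f z) : HasFDerivAt f (lin (dz f z) (dzb f z)) z := by
  rw [← fderiv_eq_lin]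
  exact h.hasFDerivAt

lemma dz_comp_aux (hg : DifferentiableAt ℝ g (f z)) (hf : DifferentiableAt ℝ f z) :
    dz (fun x => g (f x)) z = dz g (f z) * dz f z + dzb g (f z) * conj (dzb f z) ∧
    dzb (fun x => g (f x)) z = dz g (f z) * dzb f z + dzb g (f z) * conj (dz f z) := by
  apply dz_of_has
  have h := (has_lin hg).comp z (has_lin hf)
  refine h.congr_fderiv (ContinuousLinearMap.ext fun v => ?_)
  simp
  ring

lemma dz_comp (hg : DifferentiableAt ℝ g (f z)) (hf : DifferentiableAt ℝ f z) :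
    dz (fun x => g (f x)) z = dz g (f z) * dz f z + dzb g (f z) * conj (dzb f z) :=
  (dz_comp_aux hg hf).1

lemma dzb_comp (hg : DifferentiableAt ℝ g (f z)) (hf : DifferentiableAt ℝ f z) :
    dzb (fun x => g (f x)) z = dz g (f z) * dzb f z + dzb g (f z) * conj (dz f z) :=
  (dz_comp_aux hg hf).2

lemma dz_mul_aux (hf : DifferentiableAt ℝ f z) (hg : DifferentiableAt ℝ g z) :
    dz (fun x => f x * g x) z = dz f z * g z + f z * dz g z ∧
    dzb (fun x => f x * g x) z = dzb f z * g z + f z * dzb g z := by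
  apply dz_of_has
  have h := (has_lin hf).mul (has_lin hg)
  refine h.congr_fderiv (ContinuousLinearMap.ext fun v => ?_)
  simp
  ring

lemma dz_mul (hf : DifferentiableAt ℝ f z) (hg : DifferentiableAt ℝ g z) :
    dz (fun x => f x * g x) z = dz f z * g z + f z * dz g z := (dz_mul_aux hf hg).1

lemma dzb_mul (hf : DifferentiableAt ℝ f z) (hg : DifferentiableAt ℝ g z) :
    dzb (fun x => f x * g x) z = dzb f z * g z + f z * dzb g z := (dz_mul_aux hf hg).2

lemma dz_add (hf : DifferentiableAt ℝ f z) (hg : DifferentiableAt ℝ g z) :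
    dz (fun x => f x + g x) z = dz f z + dz g z := by
  unfold dz
  rw [fderiv_fun_add hf hg]
  simp only [add_apply]
  ring

lemma dzb_add (hf : DifferentiableAt ℝ f z) (hg : DifferentiableAt ℝ g z) :
    dzb (fun x => f x + g x) z = dzb f z + dzb g z := by
  unfold dzb
  rw [fderiv_fun_add hf hg]
  simp only [add_apply]
  ring

lemma dz_sub (hf : DifferentiableAt ℝ f z) (hg : DifferentiableAt ℝ g z) :
    dz (fun x => f x - g x) z = dz f z - dz g z := by
  unfold dz
  rw [fderiv_fun_sub hf hg]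
  simp only [sub_apply]
  ring

lemma dzb_sub (hf : DifferentiableAt ℝ f z) (hg : DifferentiableAt ℝ g z) :
    dzb (fun x => f x - g x) z = dzb f z - dzb g z := by
  unfold dzb
  rw [fderiv_fun_sub hf hg]
  simp only [sub_apply]
  ring

@[simp] lemma dz_const (c : ℂ) : dz (fun _ => c) z = 0 := by simp [dz]
@[simp] lemma dzb_const (c : ℂ) : dzb (fun _ => c) z = 0 := by simp [dzb]

@[simp] lemma dz_id : dz (fun x => x) z = 1 := by
  simp only [dz, fderiv_fun_id]
  simp
@[simp] lemma dzb_id : dzb (fun x => x) z = 0 := by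
  simp only [dzb, fderiv_fun_id]
  simp

lemma dz_const_mul (c : ℂ) (hf : DifferentiableAt ℝ f z) :
    dz (fun x => c * f x) z = c * dz f z := by
  have h : DifferentiableAt ℝ (fun _ : ℂ => c) z := by fun_prop
  have := dz_mul h hf
  simpa using this

lemma dzb_const_mul (c : ℂ) (hf : DifferentiableAt ℝ f z) :
    dzb (fun x => c * f x) z = c * dzb f z := by
  have h : DifferentiableAt ℝ (fun _ : ℂ => c) z := by fun_prop
  have := dzb_mul h hf
  simpa using this

lemma dz_conj_aux (hf : DifferentiableAt ℝ f z) :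
    dz (fun x => conj (f x)) z = conj (dzb f z) ∧ dzb (fun x => conj (f x)) z = conj (dz f z) := by
  apply dz_of_has
  have h := (Complex.conjCLE : ℂ →L[ℝ] ℂ).hasFDerivAt.comp z (has_lin hf)
  refine HasFDerivAt.congr_fderiv h (ContinuousLinearMap.ext fun v => ?_)
  simp
  ring

lemma dz_conj (hf : DifferentiableAt ℝ f z) : dz (fun x => conj (f x)) z = conj (dzb f z) :=
  (dz_conj_aux hf).1

lemma dzb_conj (hf : DifferentiableAt ℝ f z) : dzb (fun x => conj (f x)) z = conj (dz f z) :=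
  (dz_conj_aux hf).2

lemma holo_aux (hf : DifferentiableAt ℂ f z) : dz f z = deriv f z ∧ dzb f z = 0 := by
  apply dz_of_has
  have h := hf.hasDerivAt.hasFDerivAt.restrictScalars ℝ
  refine h.congr_fderiv (ContinuousLinearMap.ext fun v => ?_)
  simp
  ring

lemma dz_holo (hf : DifferentiableAt ℂ f z) : dz f z = deriv f z := (holo_aux hf).1
lemma dzb_holo (hf : DifferentiableAt ℂ f z) : dzb f z = 0 := (holo_aux hf).2

lemma holo_of_dzb (hf : DifferentiableAt ℝ f z) (h : dzb f z = 0) : DifferentiableAt ℂ f z := by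
  have h1 := has_lin hf
  rw [h] at h1
  have h2 : HasFDerivAt f (ContinuousLinearMap.mul ℂ ℂ (dz f z)) z := by
    refine hasFDerivAt_of_restrictScalars ℝ h1 ?_
    ext v
    simp
  exact h2.differentiableAt

lemma contDiff_dz (hf : ContDiff ℝ ∞ f) : ContDiff ℝ ∞ (dz f) := by
  have h1 : ContDiff ℝ ∞ (fderiv ℝ f) := hf.fderiv_right (by simp)
  have h2 : ∀ v : ℂ, ContDiff ℝ ∞ fun x => fderiv ℝ f x v := fun v => h1.clm_apply contDiff_const
  exact ((h2 1).sub (contDiff_const.mul (h2 I))).div_const 2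

lemma contDiff_dzb (hf : ContDiff ℝ ∞ f) : ContDiff ℝ ∞ (dzb f) := by
  have h1 : ContDiff ℝ ∞ (fderiv ℝ f) := hf.fderiv_right (by simp)
  have h2 : ∀ v : ℂ, ContDiff ℝ ∞ fun x => fderiv ℝ f x v := fun v => h1.clm_apply contDiff_const
  exact ((h2 1).add (contDiff_const.mul (h2 I))).div_const 2

lemma continuous_dz (hf : ContDiff ℝ ∞ f) : Continuous (dz f) := (contDiff_dz hf).continuous
lemma continuous_dzb (hf : ContDiff ℝ ∞ f) : Continuous (dzb f) := (contDiff_dzb hf).continuous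

lemma dz_eq_zero (h : z ∉ tsupport f) : dz f z = 0 := by
  have : fderiv ℝ f z = 0 := by
    have h1 : z ∉ tsupport (fderiv ℝ f) := fun h2 => h (tsupport_fderiv_subset ℝ h2)
    exact image_eq_zero_of_notMem_tsupport h1
  simp [dz, this]

lemma dzb_eq_zero (h : z ∉ tsupport f) : dzb f z = 0 := by
  have : fderiv ℝ f z = 0 := by
    have h1 : z ∉ tsupport (fderiv ℝ f) := fun h2 => h (tsupport_fderiv_subset ℝ h2)
    exact image_eq_zero_of_notMem_tsupport h1
  simp [dzb, this]

lemma tsupport_dz : tsupport (dz f) ⊆ tsupport f :=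
  closure_minimal (fun z hz => by
    by_contra h
    exact hz (dz_eq_zero h)) (isClosed_tsupport _)

lemma tsupport_dzb : tsupport (dzb f) ⊆ tsupport f :=
  closure_minimal (fun z hz => by
    by_contra h
    exact hz (dzb_eq_zero h)) (isClosed_tsupport _)

variable {U V : Set ℂ} {φ ψ : ℂ → ℂ}

namespace Tst

lemma mono (h : Tst U φ) (hUV : U ⊆ V) : Tst V φ := ⟨h.smooth, h.cpt, h.sub.trans hUV⟩

lemma hdz (h : Tst U φ) : Tst U (dz φ) :=
  ⟨contDiff_dz h.smooth, h.cpt.mono' ((subset_tsupport _).trans tsupport_dz), tsupport_dz.trans h.sub⟩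

lemma hdzb (h : Tst U φ) : Tst U (dzb φ) :=
  ⟨contDiff_dzb h.smooth, h.cpt.mono' ((subset_tsupport _).trans tsupport_dzb),
    tsupport_dzb.trans h.sub⟩

lemma continuous (h : Tst U φ) : Continuous φ := h.smooth.continuous

lemma differentiable (h : Tst U φ) : Differentiable ℝ φ := h.smooth.differentiable (by simp)

lemma mul_left (h : Tst U φ) (hg : ContDiff ℝ ∞ g) : Tst U (fun z => g z * φ z) :=
  ⟨hg.mul h.smooth, h.cpt.mul_left, (closure_mono (fun z hz => by
    have := hz
    simp only [Function.mem_support, ne_eq, mul_eq_zero, not_or] at this ⊢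
    exact this.2)).trans h.sub⟩

lemma mul_right (h : Tst U φ) (hg : ContDiff ℝ ∞ g) : Tst U (fun z => φ z * g z) := by
  have := h.mul_left hg
  simpa only [mul_comm] using this

lemma add (h : Tst U φ) (h' : Tst U ψ) : Tst U (fun z => φ z + ψ z) :=
  ⟨h.smooth.add h'.smooth, h.cpt.add h'.cpt,
    (tsupport_add φ ψ).trans (union_subset h.sub h'.sub)⟩

lemma integrable (h : Tst U φ) : Integrable φ := h.continuous.integrable_of_hasCompactSupport h.cpt

end Tst

/-- Integration by parts, `f` of class `C¹` on an open set. -/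
lemma ibp_fderiv (hU : IsOpen U) (hf : ContDiffOn ℝ 1 f U) (h : Tst U φ) (v : ℂ) :
    Integrable (fun z => f z * fderiv ℝ φ z v) ∧ Integrable (fun z => fderiv ℝ f z v * φ z) ∧
    ∫ z, f z * fderiv ℝ φ z v = - ∫ z, fderiv ℝ f z v * φ z := by
  have key : ∀ g ψ : ℂ → ℂ, ContinuousOn g U → Continuous ψ → tsupport ψ ⊆ U →
      HasCompactSupport ψ → Integrable fun z => g z * ψ z := by
    intro g ψ hg hψ hs hc
    refine Continuous.integrable_of_hasCompactSupport ?_ hc.mul_left
    rw [continuous_iff_continuousAt]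
    intro z
    by_cases hz : z ∈ tsupport ψ
    · exact (hg.continuousAt (hU.mem_nhds (hs hz))).mul hψ.continuousAt
    · have h0 : ψ =ᶠ[𝓝 z] 0 := notMem_tsupport_iff_eventuallyEq.1 hz
      refine ContinuousAt.congr (f := fun _ => (0 : ℂ)) continuousAt_const ?_
      filter_upwards [h0] with x hx
      simp [hx]
  have hd : ContinuousOn (fun z => fderiv ℝ f z v) U :=
    (hf.continuousOn_fderiv_of_isOpen hU le_rfl).clm_apply continuousOn_const
  have i1 := key f (fun z => fderiv ℝ φ z v) hf.continuousOn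
    ((h.smooth.continuous_fderiv (by simp)).clm_apply continuous_const)
    ((tsupport_fderiv_apply_subset ℝ v).trans h.sub) (h.cpt.fderiv_apply ℝ v)
  have i2 := key _ φ hd h.continuous h.sub h.cpt
  refine ⟨i1, i2, ?_⟩
  refine integral_mul_fderiv_eq_neg_fderiv_mul_of_integrable (𝕜 := ℂ) i2 i1
    (key f φ hf.continuousOn h.continuous h.sub h.cpt) (fun x hx => ?_)
    (fun x _ => h.differentiable x)
  exact (hf.differentiableOn (by simp)).differentiableAt (hU.mem_nhds (h.sub hx))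

lemma ibpOn_dz (hU : IsOpen U) (hf : ContDiffOn ℝ 1 f U) (h : Tst U φ) :
    ∫ z, f z * dz φ z = - ∫ z, dz f z * φ z := by
  obtain ⟨a1, b1, c1⟩ := ibp_fderiv hU hf h 1
  obtain ⟨a2, b2, c2⟩ := ibp_fderiv hU hf h I
  have e1 : (fun z => f z * dz φ z) =
      fun z => (f z * fderiv ℝ φ z 1 - I * (f z * fderiv ℝ φ z I)) / 2 := by
    ext z; unfold dz; ring
  have e2 : (fun z => dz f z * φ z) =
      fun z => (fderiv ℝ f z 1 * φ z - I * (fderiv ℝ f z I * φ z)) / 2 := by
    ext z; unfold dz; ring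
  rw [e1, e2, integral_div, integral_div, integral_sub a1 (a2.const_mul I),
    integral_sub b1 (b2.const_mul I), integral_const_mul, integral_const_mul, c1, c2]
  ring

lemma ibpOn_dzb (hU : IsOpen U) (hf : ContDiffOn ℝ 1 f U) (h : Tst U φ) :
    ∫ z, f z * dzb φ z = - ∫ z, dzb f z * φ z := by
  obtain ⟨a1, b1, c1⟩ := ibp_fderiv hU hf h 1
  obtain ⟨a2, b2, c2⟩ := ibp_fderiv hU hf h I
  have e1 : (fun z => f z * dzb φ z) =
      fun z => (f z * fderiv ℝ φ z 1 + I * (f z * fderiv ℝ φ z I)) / 2 := by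
    ext z; unfold dzb; ring
  have e2 : (fun z => dzb f z * φ z) =
      fun z => (fderiv ℝ f z 1 * φ z + I * (fderiv ℝ f z I * φ z)) / 2 := by
    ext z; unfold dzb; ring
  rw [e1, e2, integral_div, integral_div, integral_add a1 (a2.const_mul I),
    integral_add b1 (b2.const_mul I), integral_const_mul, integral_const_mul, c1, c2]
  ring

/-- Integration by parts against a smooth function. -/
lemma ibp_dz (hf : ContDiff ℝ ∞ f) (h : Tst U φ) :
    ∫ z, f z * dz φ z = - ∫ z, dz f z * φ z :=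
  ibpOn_dz isOpen_univ ((hf.of_le (by simp)).contDiffOn) (h.mono (subset_univ _))

lemma ibp_dzb (hf : ContDiff ℝ ∞ f) (h : Tst U φ) :
    ∫ z, f z * dzb φ z = - ∫ z, dzb f z * φ z :=
  ibpOn_dzb isOpen_univ ((hf.of_le (by simp)).contDiffOn) (h.mono (subset_univ _))

lemma integral_dz_tst (h : Tst U φ) : ∫ z, dz φ z = 0 := by
  have := ibp_dz (f := fun _ => (1 : ℂ)) contDiff_const h
  simpa using this

lemma integral_dzb_tst (h : Tst U φ) : ∫ z, dzb φ z = 0 := by
  have := ibp_dzb (f := fun _ => (1 : ℂ)) contDiff_const h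
  simpa using this

/-- Continuous functions are locally square integrable. -/
lemma L2.of_continuousOn {g : ℂ → ℂ} (hg : ContinuousOn g U) : L2 U g := fun K hKU hK => by
  have : IsFiniteMeasure ((volume : Measure ℂ).restrict K) :=
    ⟨by rw [Measure.restrict_apply_univ]; exact hK.measure_lt_top⟩
  have hg' := hg.mono hKU
  obtain ⟨C, hC⟩ := hK.exists_bound_of_continuousOn hg'
  refine MemLp.of_bound (hg'.aestronglyMeasurable hK.measurableSet) C ?_
  exact (ae_restrict_iff' hK.measurableSet).2 (ae_of_all _ hC)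

lemma L2.mono {g : ℂ → ℂ} (hg : L2 V g) (h : U ⊆ V) : L2 U g := fun K hK hKc => hg K (hK.trans h) hKc

lemma WD.mono {a b : ℂ → ℂ} (h : WD V f a b) (hUV : U ⊆ V) : WD U f a b :=
  ⟨h.cont.mono hUV, h.l2a.mono hUV, h.l2b.mono hUV, fun φ hφ => h.dz φ (hφ.mono hUV),
    fun φ hφ => h.dzb φ (hφ.mono hUV)⟩

/-- A `C¹` function on an open set has its derivatives as weak derivatives. -/
lemma wd_smoothOn (hU : IsOpen U) (hf : ContDiffOn ℝ 1 f U) : WD U f (dz f) (dzb f) := by
  have hd : ∀ v : ℂ, ContinuousOn (fun z => fderiv ℝ f z v) U := fun v =>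
    (hf.continuousOn_fderiv_of_isOpen hU le_rfl).clm_apply continuousOn_const
  refine ⟨hf.continuousOn, L2.of_continuousOn ?_, L2.of_continuousOn ?_,
    fun φ hφ => ibpOn_dz hU hf hφ, fun φ hφ => ibpOn_dzb hU hf hφ⟩
  · exact ((hd 1).sub (continuousOn_const.mul (hd I))).div_const 2
  · exact ((hd 1).add (continuousOn_const.mul (hd I))).div_const 2

/-- A smooth function has its derivatives as weak derivatives. -/
lemma wd_smooth (hf : ContDiff ℝ ∞ f) (U : Set ℂ) : WD U f (dz f) (dzb f) :=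
  (wd_smoothOn isOpen_univ (hf.of_le (by simp)).contDiffOn).mono (subset_univ U)

/-- holomorphic functions solve every equation with `μ = 0` -/
lemma sol_zero (hU : IsOpen U) (hf : DifferentiableOn ℂ f U) {μ : ℂ → ℂ}
    (hμ : ∀ᵐ z ∂(volume.restrict U), μ z = 0) : Sol μ U f := by
  have h1 : ContDiffOn ℝ 1 f U := by
    have : ContDiffOn ℂ 1 f U := hf.contDiffOn hU
    exact this.restrict_scalars ℝ
  refine ⟨_, _, wd_smoothOn hU h1, ?_⟩
  filter_upwards [hμ, ae_restrict_mem hU.measurableSet] with z hz hzU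
  rw [hz, zero_mul]
  exact dzb_holo (hf.differentiableAt (hU.mem_nhds hzU))

/-- mixed second derivatives commute -/
lemma dz_dzb_comm (hf : ContDiff ℝ ∞ f) (z : ℂ) : dz (dzb f) z = dzb (dz f) z := by
  have h1 : ContDiff ℝ ∞ (fderiv ℝ f) := hf.fderiv_right (by simp)
  have hd : DifferentiableAt ℝ (fderiv ℝ f) z := h1.differentiable (by simp) z
  have hsym : IsSymmSndFDerivAt ℝ f z := (hf.contDiffAt).isSymmSndFDerivAt (by
    simp only [minSmoothness_of_isRCLikeNormedField]
    exact WithTop.coe_le_coe.2 le_top)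
  have key : ∀ v w : ℂ, fderiv ℝ (fun x => fderiv ℝ f x v) z w = fderiv ℝ (fderiv ℝ f) z w v := by
    intro v w
    have h2 := ((ContinuousLinearMap.apply ℝ ℂ v).hasFDerivAt.comp z hd.hasFDerivAt)
    have h3 : HasFDerivAt (fun x => fderiv ℝ f x v) _ z := h2
    rw [h3.fderiv]
    rfl
  have hv : ∀ v : ℂ, DifferentiableAt ℝ (fun x => fderiv ℝ f x v) z := fun v =>
    (h1.clm_apply contDiff_const).differentiable (by simp) z
  have e1 : ∀ w : ℂ, fderiv ℝ (dzb f) z w =
      (fderiv ℝ (fderiv ℝ f) z w 1 + I * fderiv ℝ (fderiv ℝ f) z w I) / 2 := by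
    intro w
    have : dzb f = fun x => (2 : ℂ)⁻¹ * (fderiv ℝ f x 1 + I * fderiv ℝ f x I) := by
      ext x; unfold dzb; ring
    have h4 := ((hv 1).hasFDerivAt.add ((hv I).hasFDerivAt.const_mul I)).const_mul (2 : ℂ)⁻¹
    have h5 : HasFDerivAt (fun x => (2 : ℂ)⁻¹ * (fderiv ℝ f x 1 + I * fderiv ℝ f x I)) _ z := h4
    rw [this, h5.fderiv]
    simp only [smul_apply, add_apply, key, smul_eq_mul]
    ring
  have e2 : ∀ w : ℂ, fderiv ℝ (dz f) z w =
      (fderiv ℝ (fderiv ℝ f) z w 1 - I * fderiv ℝ (fderiv ℝ f) z w I) / 2 := by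
    intro w
    have : dz f = fun x => (2 : ℂ)⁻¹ * (fderiv ℝ f x 1 - I * fderiv ℝ f x I) := by
      ext x; unfold dz; ring
    have h4 := ((hv 1).hasFDerivAt.sub ((hv I).hasFDerivAt.const_mul I)).const_mul (2 : ℂ)⁻¹
    have h5 : HasFDerivAt (fun x => (2 : ℂ)⁻¹ * (fderiv ℝ f x 1 - I * fderiv ℝ f x I)) _ z := h4
    rw [this, h5.fderiv]
    simp only [smul_apply, sub_apply, key, smul_eq_mul]
    ring
  have hs := hsym I 1
  change (fderiv ℝ (dzb f) z 1 - I * fderiv ℝ (dzb f) z I) / 2 =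
    (fderiv ℝ (dz f) z 1 + I * fderiv ℝ (dz f) z I) / 2
  rw [e1, e1, e2, e2, hs]
  ring

/-- the integral of a bracket with a test function vanishes -/
lemma integral_bracket (h : Tst U φ) (hg : ContDiff ℝ ∞ g) :
    ∫ z, (dz φ z * dzb g z - dzb φ z * dz g z) = 0 := by
  have h1 := integral_dz_tst (h.mul_right (contDiff_dzb hg))
  have h2 := integral_dzb_tst (h.mul_right (contDiff_dz hg))
  have i1 : Integrable fun z => dz (fun x => φ x * dzb g x) z :=
    (h.mul_right (contDiff_dzb hg)).hdz.integrable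
  have i2 : Integrable fun z => dzb (fun x => φ x * dz g x) z :=
    (h.mul_right (contDiff_dz hg)).hdzb.integrable
  have e : (fun z => dz φ z * dzb g z - dzb φ z * dz g z) =
      fun z => dz (fun x => φ x * dzb g x) z - dzb (fun x => φ x * dz g x) z := by
    ext z
    rw [dz_mul (h.differentiable z) ((contDiff_dzb hg).differentiable (by simp) z),
      dzb_mul (h.differentiable z) ((contDiff_dz hg).differentiable (by simp) z),
      dz_dzb_comm hg]
    ring
  rw [e, integral_sub i1 i2, h1, h2, sub_zero]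

end Pool.Agent.Helper68.QC
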