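import Pool.Agent.Helper68.QC.St6

/-!
# PART M: module statements, part 7 (two holomorphic parameters)
-/

open MeasureTheory Set Filter Topology Complex
open scoped ContDiff ComplexConjugate ENNReal

namespace Pool.Agent.Helper68.QC

/-- the unit bidisc -/
def DD2 : Set (ℂ × ℂ) := Metric.ball 0 1 ×ˢ Metric.ball 0 1

/-- holomorphic in each variable and jointly continuous on the bidisc -/
def Hol2 (g : ℂ → ℂ → ℂ) : Prop :=
  ContinuousOn (fun p : ℂ × ℂ => g p.1 p.2) DD2 ∧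
  (∀ w ∈ Metric.ball (0 : ℂ) 1, DifferentiableOn ℂ (fun z => g z w) (Metric.ball 0 1)) ∧
  ∀ z ∈ Metric.ball (0 : ℂ) 1, DifferentiableOn ℂ (fun w => g z w) (Metric.ball 0 1)

/-- holomorphic family of Beltrami coefficients on the bidisc, `‖μ‖ ≤ k < 1` on every smaller
closed bidisc -/
structure Fam2 (μ : ℂ → ℂ → ℂ → ℂ) : Prop where
  bel : ∀ r < (1 : ℝ), ∃ k < 1, ∀ z ∈ Metric.closedBall (0 : ℂ) r, ∀ w ∈ Metric.closedBall (0 : ℂ) r,
    Bel k (μ z w)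
  hol1 : ∀ y, ∀ w ∈ Metric.ball (0 : ℂ) 1, DifferentiableOn ℂ (fun z => μ z w y) (Metric.ball 0 1)
  hol2 : ∀ y, ∀ z ∈ Metric.ball (0 : ℂ) 1, DifferentiableOn ℂ (fun w => μ z w y) (Metric.ball 0 1)

/-- JCN (about 150 lines).  Joint continuity and separate holomorphy of the normalised solutions.  Proof: holomorphy in each variable: StHOL on the balls of radius `r < 1` (locally).  Continuity at `(z₀,w₀)`: let `‖z₀‖, ‖w₀‖ < r < r' < 1`, `k` for `r'`.  By Cauchy's estimate on discs of radius `r' - r`, `‖μ z w y - μ z' w y‖ ≤ (k/(r'-r))‖z - z'‖` and similarly in `w`, for all `y` and all `z, z', w` in `closedBall 0 r` (convex, mean value inequality); so `‖μ z w y - μ z₀ w₀ y‖ ≤ (k/(r'-r))(‖z-z₀‖ + ‖w-w₀‖)` and StLIP gives `‖nq (μ z w) y - nq (μ z₀ w₀) y‖ ≤ C(‖z-z₀‖ + ‖w-w₀‖)`.  Hypotheses: none. -/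
def StJCN : Prop := StHOL → StLIP → ∀ μ : ℂ → ℂ → ℂ → ℂ, Fam2 μ → ∀ y, Hol2 (fun z w => nq (μ z w) y)

/-- conclusion of JCN -/
def JC2 : Prop := ∀ μ : ℂ → ℂ → ℂ → ℂ, Fam2 μ → ∀ y, Hol2 (fun z w => nq (μ z w) y)

/-- SQ2 (about 200 lines).  Square roots on the bidisc.  Proof: hSQT on balls of radius `r < 1` around `0` (uniqueness of the continuous square root with a given value at `0` glues them; or the primitive on the whole unit disc) gives `s₁` holomorphic on the disc, `s₁² = g(·,0)`, `s₁ 0 = e`.  `L(z,w) = ∫_0^1 w ∂_w g(z,τw)/g(z,τw) dτ`: `∂_w g` is jointly continuous (Cauchy formula in `w` on a small circle, `g` jointly continuous) and holomorphic in `z` (differentiate the Cauchy integral; or locally bounded + Cauchy/Morera: a parametric integral of functions holomorphic in `z`, continuous in both variables, e.g. `hasDerivAt_integral_of_dominated_loc_of_deriv_le`); so `L`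 is jointly continuous, holomorphic in `z`, and in `w` (`L` is the primitive of `∂_w g/g` along rays: `∂_w L = ∂_w g/g`, or `exp L = g(z,w)/g(z,0)` and continuity of `L` in `w` imply that `L` is locally a branch of the logarithm, hence holomorphic), `exp L(z,w) = g(z,w)/g(z,0)` (differentiate in `τ`).  `s(z,w) = s₁ z exp(L(z,w)/2)`.  Hypotheses: hSQT. -/
def StSQ2 : Prop := ∀ (g : ℂ → ℂ → ℂ) (e : ℂ), Hol2 g → (∀ p ∈ DD2, g p.1 p.2 ≠ 0) → e ^ 2 = g 0 0 →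
  ∃ s : ℂ → ℂ → ℂ, Hol2 s ∧ (∀ p ∈ DD2, s p.1 p.2 ^ 2 = g p.1 p.2) ∧ s 0 0 = e

/-- RP2 (about 220 lines).  Holomorphic lift of one Möbius transformation, two parameters.  Proof: as RP1 (Pool/Agent/Helper47/QCM/M_RP1.lean) with `w_{z,w} = nq (μ z w)` and hSQ2 in place of hSQT: CASE `A₁₀ = 0`: `β = w_{z,w}(mob A 0)`, `α = w_{z,w}(mob A 1) - β`, `e² = α`, `B = [[e, β/e],[0,1/e]]`.  CASE `A₁₀ ≠ 0`: `c = w(-A₁₁/A₁₀)`, `d = w(A₀₀/A₁₀)`, for a fixed `z₀ ≠ -A₁₁/A₁₀`: `α = 1/((w (mob A z₀) - d)(w z₀ - c))`, `γ² = -α`, `B = [[dγ, -(1 + c d γ²)/γ],[γ, -cγ]]`.  `StEQV` gives some matrix `B_{z,w}` with `Intw A B_{z,w} (nq (μ z w))`, equal to `± B z w`, so `Intw A (B z w) (nq (μ z w))` (StITW).  The entries are built from Hol2 functions by field operations.  Hypotheses: none. -/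
def StRP2 : Prop := StEQV → JC2 → StITW → StSQ2 → StEX → ∀ μ : ℂ → ℂ → ℂ → ℂ, Fam2 μ → ∀ A B₀ : SL,
  (∀ z ∈ Metric.ball (0 : ℂ) 1, ∀ w ∈ Metric.ball (0 : ℂ) 1, InvB A (μ z w)) →
  Intw A B₀ (nq (μ 0 0)) →
  ∃ B : ℂ → ℂ → SL, B 0 0 = B₀ ∧ (∀ i j, Hol2 (fun z w => B z w i j)) ∧
    ∀ z ∈ Metric.ball (0 : ℂ) 1, ∀ w ∈ Metric.ball (0 : ℂ) 1, Intw A (B z w) (nq (μ z w))

/-- conclusion of RP2 -/
def Lift2 : Prop := ∀ μ : ℂ → ℂ → ℂ → ℂ, Fam2 μ → ∀ A B₀ : SL,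
  (∀ z ∈ Metric.ball (0 : ℂ) 1, ∀ w ∈ Metric.ball (0 : ℂ) 1, InvB A (μ z w)) →
  Intw A B₀ (nq (μ 0 0)) →
  ∃ B : ℂ → ℂ → SL, B 0 0 = B₀ ∧ (∀ i j, Hol2 (fun z w => B z w i j)) ∧
    ∀ z ∈ Metric.ball (0 : ℂ) 1, ∀ w ∈ Metric.ball (0 : ℂ) 1, Intw A (B z w) (nq (μ z w))

/-- the two parameter representation: one homomorphism for every point of the bidisc -/
def Rep2 : Prop := ∀ μ : ℂ → ℂ → ℂ → ℂ, Fam2 μ → ∀ (Γ : Type) (_ : Group Γ) (ρ₀ σ : Γ →* SL),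
  (∀ z ∈ Metric.ball (0 : ℂ) 1, ∀ w ∈ Metric.ball (0 : ℂ) 1, ∀ γ, InvB (ρ₀ γ) (μ z w)) →
  (∀ γ, Intw (ρ₀ γ) (σ γ) (nq (μ 0 0))) →
  ∃ ρ : ℂ → ℂ → Γ →* SL, ρ 0 0 = σ ∧ (∀ γ i j, Hol2 (fun z w => ρ z w γ i j)) ∧
    ∀ z ∈ Metric.ball (0 : ℂ) 1, ∀ w ∈ Metric.ball (0 : ℂ) 1, ∀ γ, Intw (ρ₀ γ) (ρ z w γ) (nq (μ z w))

/-- RE2 (about 120 lines).  Two parameter representation `Rep2`.  Proof: Lift2 for every `γ` gives `B_γ`; `B_{γγ'}` and `B_γ B_γ'` agree up to sign at every point (StITW), are jointly continuous on the connected set `DD2` and agree at `(0,0)`; so they are equal (as in RPX); `MonoidHom.mk'`; outside the bidisc take `σ`.  Hypotheses: none. -/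
def StRE2 : Prop := Lift2 → StITW → Rep2

end Pool.Agent.Helper68.QC
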