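import Pool.Agent.Helper68.QC.St4

/-!
# PART M: module statements, part 5 (glue with part B: maps which are `C¹` off the unit circle)
-/

open MeasureTheory Set Filter Topology Complex
open scoped ContDiff ComplexConjugate ENNReal

namespace Pool.Agent.Helper68.QC

/-- the complement of the unit circle -/
def offS : Set ℂ := {z : ℂ | ‖z‖ ≠ 1}

open Classical in
/-- the Beltrami coefficient of a map which is `C¹` off the unit circle -/
noncomputable def mu0 (W : ℂ → ℂ) (z : ℂ) : ℂ := if ‖z‖ = 1 then 0 else dzb W z / dz W z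

/-- RMV (about 180 lines).  The circle is removable for continuous functions with square integrable derivatives.  Proof.  Fix a smooth `h : ℝ → [0,1]`, `h = 0` for `|s| ≤ 1/2`, `h = 1` for `|s| ≥ 1` (one minus a ContDiffBump), `η_n z = h(n(|z|² - 1))`, smooth on `ℂ`, zero near the circle, `η_n → 1` off the circle.  `‖dzb η_n z‖ ≤ C n |z|` and `dzb η_n = 0` unless `| |z|²-1 | ≤ 1/n`, a set of area `2π/n`, so `∫ ‖dzb η_n‖ ≤ C'` for all `n`; for a test function `ψ`, `∫ ψ dzb η_n = -∫ dzb ψ η_n → -∫ dzb ψ = 0`; so `∫ g dzb η_n → 0` for every continuous compactly supported `g` (approximate uniformly by test functions, hMO1, hMO2).  For a test function `φ`: `η_n φ ∈ Tst offS`, `∫ f η_n dzb φ = ∫ f dzb(η_n φ) - ∫ f φ dzb η_n = -∫ b η_n φ - ∫ (fφ) dzb η_n`, and `n → ∞` gives `∫ f dzb φ = -∫ b φ` (dominated convergence; the circle is a null set: `Measure.addHaar_sphere`).  Same for `dz`.  Hypotheses: hMO1, hMO2. -/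
def StRMV : Prop := ∀ f a b : ℂ → ℂ, Continuous f → WD offS f a b → L2 univ a → L2 univ b →
  WD univ f a b

/-- WSL (about 200 lines).  Homeomorphisms which are `C¹` quasiconformal off the circle.  Proof.  On `offS`, `det DW = ‖dz W‖² - ‖dzb W‖² ≥ (1-k²)‖dz W‖²`; by the area formula for the injective map `W` on `offS ∩ closedBall 0 R` (`lintegral_abs_det_fderiv_eq_addHaar_image`), `(1-k²) ∫ ‖dz W‖² ≤ vol (W '' closedBall 0 R) < ∞`; so `dz W`, `dzb W` are locally square integrable on `ℂ` (circle null).  `WD offS W (dz W) (dzb W)` by `wd_smoothOn`; hRMV: `WD univ`.  `mu0 W` is measurable (continuous on the open set `offS`), bounded by `k`; equation a.e.  `w' = (W - W 0)/(W 1 - W 0)` is a homeomorphism fixing `0, 1` with the same equation; StUNI with `S = ∅`: `w' = nq (mu0 W)`.  Hypotheses: hRMV, hUNI. -/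
def StWSL : Prop := ∀ (k : ℝ) (W : ℂ → ℂ), 0 ≤ k → k < 1 → IsHomeomorph W → ContDiffOn ℝ 1 W offS →
  (∀ z ∈ offS, dz W z ≠ 0 ∧ ‖dzb W z‖ ≤ k * ‖dz W z‖) →
  Bel k (mu0 W) ∧ Sol (mu0 W) univ W ∧ ∀ z, W z = W 0 + (W 1 - W 0) * nq (mu0 W) z

/-- INB (about 120 lines).  Invariance of the coefficient.  Proof: off the circle and the point `den A z = 0` (null sets), `z ∈ offS`, `mob A z ∈ offS`, `W ∘ mob A = mob B ∘ W` near `z`; differentiate (dz_comp, dzb_comp; `mob A` is holomorphic with derivative `1/(den A z)²`, `mob B` with derivative `1/(den B (W z))²`): `dz W (A z) A'(z) = B'(W z) dz W z`, `dzb W (A z) conj A'(z) = B'(W z) dzb W z`; divide: `mu0 W (A z) · conj A'/A' = mu0 W z`, i.e. `mu0 W (A z) den² = mu0 W z conj(den)²`.  (`mob A z ∉ circle`: hypothesis.)  Hypotheses: none. -/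
def StINB : Prop := ∀ (W : ℂ → ℂ) (A B : SL), ContDiffOn ℝ 1 W offS → (∀ z ∈ offS, dz W z ≠ 0) →
  (∀ z ∈ offS, den A z ≠ 0 → mob A z ∈ offS) →
  (∀ z, den A z ≠ 0 → den B (W z) ≠ 0 ∧ W (mob A z) = mob B (W z)) → InvB A (mu0 W)

/-- CPL (about 100 lines).  Composition of two such maps.  Proof: `W ∘ V` is a homeomorphism, `C¹` on `offS` (`V` maps `offS` to `offS`); with `p = dz W (V z)`, `q = dzb W (V z)`, `r = dz V z`, `s = dzb V z`: `dz = p r + q conj s`, `dzb = p s + q conj r`, `|q| ≤ k|p|`, `|s| ≤ k'|r|`: `|dz| ≥ |p||r|(1 - kk') > 0` and `|dzb|/|dz| ≤ (k + k')/(1 + kk')`: with `y = s/r`, `x = (q/p)(conj r/r)`: `|dzb|/|dz| = |y + x|/|1 + x conj y|`, and `(|x|+|y|)²|1 + x conj y|² - (1+|x||y|)²|y+x|² = 2(|x||y| - Re(x conj y))(1-|x|²)(1-|y|²) ≥ 0`, so it is at most `(|x|+|y|)/(1+|x||y|)`, which increases in `|x|` and `|y|`.  Hypotheses: none. -/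
def StCPL : Prop := ∀ (k k' : ℝ) (W V : ℂ → ℂ), 0 ≤ k → k < 1 → 0 ≤ k' → k' < 1 → IsHomeomorph W →
  IsHomeomorph V → ContDiffOn ℝ 1 W offS → ContDiffOn ℝ 1 V offS → MapsTo V offS offS →
  (∀ z ∈ offS, dz W z ≠ 0 ∧ ‖dzb W z‖ ≤ k * ‖dz W z‖) →
  (∀ z ∈ offS, dz V z ≠ 0 ∧ ‖dzb V z‖ ≤ k' * ‖dz V z‖) →
  IsHomeomorph (fun z => W (V z)) ∧ ContDiffOn ℝ 1 (fun z => W (V z)) offS ∧
  ∀ z ∈ offS, dz (fun x => W (V x)) z ≠ 0 ∧
    ‖dzb (fun x => W (V x)) z‖ ≤ ((k + k') / (1 + k * k')) * ‖dz (fun x => W (V x)) z‖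

/-- RFL (about 200 lines).  Reflection extension of a self map of the disc.  Proof: `V z = E z` for `‖z‖ ≤ 1`, `V z = 1/conj (E (1/conj z))` for `‖z‖ > 1`.  On the circle both formulas agree (`1/conj ζ = ζ` for `‖ζ‖ = 1`).  `E (1/conj z) ≠ 0` for `z ≠ ∞` because `E 0 = 0` and `E` is injective.  Continuous (two closed sets), injective, onto, `‖V z‖ → ∞` at infinity (`E` continuous at `0`, `E 0 = 0`), hence a homeomorphism (continuous proper bijection).  Off the closed disc: `V = j ∘ E ∘ j`, `j z = 1/conj z`: `C¹`; `dz`, `dzb` by the chain rule: `j = conj ∘ m`, `m z = 1/z` holomorphic; `|dz V z| = |E_z(j z)| /(|E(jz)|²|z|²)`, `|dzb V z| = |E_z̄(j z)|/(…)` with the same factor, so nonzero, same dilatation.  Hypotheses: none. -/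
def StRFL : Prop := ∀ (k : ℝ) (E : ℂ → ℂ), ContinuousOn E (Metric.closedBall 0 1) →
  BijOn E (Metric.ball 0 1) (Metric.ball 0 1) → BijOn E (Metric.sphere 0 1) (Metric.sphere 0 1) →
  E 0 = 0 → ContDiffOn ℝ 1 E (Metric.ball 0 1) →
  (∀ z ∈ Metric.ball (0 : ℂ) 1, dz E z ≠ 0 ∧ ‖dzb E z‖ ≤ k * ‖dz E z‖) →
  ∃ V : ℂ → ℂ, (∀ z ∈ Metric.closedBall (0 : ℂ) 1, V z = E z) ∧
    (∀ z, 1 < ‖z‖ → V z = 1 / conj (E (1 / conj z))) ∧ IsHomeomorph V ∧ ContDiffOn ℝ 1 V offS ∧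
    MapsTo V offS offS ∧ ∀ z ∈ offS, dz V z ≠ 0 ∧ ‖dzb V z‖ ≤ k * ‖dz V z‖

end Pool.Agent.Helper68.QC
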