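import Mathlib

/-!
# Project QD (MP_d112a4_gt), PART M: the measurable Riemann mapping theorem.  Definitions.

Functions are `f : ℂ → ℂ`; derivatives are real Frechet derivatives, `dz = ∂/∂z`,
`dzb = ∂/∂z̄`.  Weak derivatives are tested against smooth compactly supported functions.
`nq μ` is the homeomorphic solution of the Beltrami equation `w_z̄ = μ w_z` fixing `0` and `1`
(and `∞`, being a homeomorphism of the plane).
-/

open MeasureTheory Set Filter Topology Complex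
open scoped ContDiff ComplexConjugate ENNReal

namespace Pool.Agent.Helper68.QC

/-- `∂f/∂z`. -/
noncomputable def dz (f : ℂ → ℂ) (z : ℂ) : ℂ := (fderiv ℝ f z 1 - I * fderiv ℝ f z I) / 2

/-- `∂f/∂z̄`. -/
noncomputable def dzb (f : ℂ → ℂ) (z : ℂ) : ℂ := (fderiv ℝ f z 1 + I * fderiv ℝ f z I) / 2

/-- Test functions with support in `U`. -/
structure Tst (U : Set ℂ) (φ : ℂ → ℂ) : Prop where
  smooth : ContDiff ℝ ∞ φ
  cpt : HasCompactSupport φ
  sub : tsupport φ ⊆ U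

/-- Locally square integrable on `U`. -/
def L2 (U : Set ℂ) (a : ℂ → ℂ) : Prop :=
  ∀ K ⊆ U, IsCompact K → MemLp a 2 (volume.restrict K)

/-- `f` is continuous on `U` with locally square integrable weak derivatives `f_z = a`,
`f_z̄ = b` on `U` (the values of `f`, `a`, `b` outside `U` are irrelevant). -/
structure WD (U : Set ℂ) (f a b : ℂ → ℂ) : Prop where
  cont : ContinuousOn f U
  l2a : L2 U a
  l2b : L2 U b
  dz : ∀ φ, Tst U φ → ∫ z, f z * dz φ z = - ∫ z, a z * φ z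
  dzb : ∀ φ, Tst U φ → ∫ z, f z * dzb φ z = - ∫ z, b z * φ z

/-- `f` solves the Beltrami equation `f_z̄ = μ f_z` on `U` in the weak sense. -/
def Sol (μ : ℂ → ℂ) (U : Set ℂ) (f : ℂ → ℂ) : Prop :=
  ∃ a b, WD U f a b ∧ ∀ᵐ z ∂(volume.restrict U), b z = μ z * a z

/-- Beltrami coefficients of norm at most `k`. -/
structure Bel (k : ℝ) (μ : ℂ → ℂ) : Prop where
  meas : Measurable μ
  le : ∀ z, ‖μ z‖ ≤ k

/-- Smooth quasiconformal diffeomorphisms of the plane. -/
structure QS (k : ℝ) (w : ℂ → ℂ) : Prop where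
  smooth : ContDiff ℝ ∞ w
  bij : Function.Bijective w
  ne : ∀ z, dz w z ≠ 0
  le : ∀ z, ‖dzb w z‖ ≤ k * ‖dz w z‖

/-- `w` is the normalised solution of the Beltrami equation with coefficient `μ`. -/
structure IsNq (μ : ℂ → ℂ) (w : ℂ ≃ₜ ℂ) : Prop where
  zero : w 0 = 0
  one : w 1 = 1
  sol : Sol μ univ w

open Classical in
/-- The normalised solution of the Beltrami equation. -/
noncomputable def nq (μ : ℂ → ℂ) : ℂ ≃ₜ ℂ :=
  if h : ∃ w : ℂ ≃ₜ ℂ, IsNq μ w then h.choose else Homeomorph.refl ℂ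

/-- `SL(2,ℂ)`. -/
abbrev SL : Type := Matrix.SpecialLinearGroup (Fin 2) ℂ

/-- denominator `c z + d` -/
noncomputable def den (A : SL) (z : ℂ) : ℂ := A 1 0 * z + A 1 1

/-- the Möbius transformation `(a z + b) / (c z + d)` -/
noncomputable def mob (A : SL) (z : ℂ) : ℂ := (A 0 0 * z + A 0 1) / den A z

/-- `μ dz̄/dz` is invariant under `A`. -/
def InvB (A : SL) (μ : ℂ → ℂ) : Prop :=
  ∀ᵐ z : ℂ, μ (mob A z) * den A z ^ 2 = μ z * conj (den A z) ^ 2

/-- `w ∘ A = B ∘ w` on the Riemann sphere, where `w(∞) = ∞`. -/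
def Intw (A B : SL) (w : ℂ → ℂ) : Prop :=
  (∀ z, den A z = 0 ↔ den B (w z) = 0) ∧
  (∀ z, den A z ≠ 0 → w (mob A z) = mob B (w z)) ∧
  (A 1 0 = 0 ↔ B 1 0 = 0) ∧ (A 1 0 ≠ 0 → w (A 0 0 / A 1 0) = B 0 0 / B 1 0)

end Pool.Agent.Helper68.QC
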