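import Pool.Agent.Helper68.QC.Cal
import Pool.Agent.Helper63.KB.Beltrami

/-!
# PART M: further definitions used by the module statements
-/

open MeasureTheory Set Filter Topology Complex
open scoped ContDiff ComplexConjugate ENNReal

namespace Pool.Agent.Helper68.QC

/-- Weak convergence (along a filter) against square integrable functions of bounded support. -/
def WK {ι : Type} (F : Filter ι) (g : ι → ℂ → ℂ) (a : ℂ → ℂ) : Prop :=
  ∀ ψ : ℂ → ℂ, MemLp ψ 2 volume → (∃ R : ℝ, ∀ z, R < ‖z‖ → ψ z = 0) →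
    Tendsto (fun i => ∫ z, g i z * ψ z) F (𝓝 (∫ z, a z * ψ z))

/-- Locally uniform convergence of homeomorphisms and of their inverses. -/
def LU {ι : Type} (F : Filter ι) (W : ι → ℂ ≃ₜ ℂ) (w : ℂ ≃ₜ ℂ) : Prop :=
  ∀ R : ℝ, TendstoUniformlyOn (fun i z => W i z) w F (Metric.closedBall 0 R) ∧
    TendstoUniformlyOn (fun i z => (W i).symm z) w.symm F (Metric.closedBall 0 R)

/-- Uniform local energy bounds. -/
def EB {ι : Type} (a b : ι → ℂ → ℂ) : Prop :=
  ∀ R : ℝ, ∃ B : ℝ, ∀ i, ∫ z in Metric.closedBall (0 : ℂ) R, (‖a i z‖ ^ 2 + ‖b i z‖ ^ 2) ≤ B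

/-- Jacobian. -/
noncomputable def jc (a b : ℂ → ℂ) (z : ℂ) : ℝ := ‖a z‖ ^ 2 - ‖b z‖ ^ 2

/-- `w` is a quasiconformal homeomorphism with weak derivatives `a`, `b`, satisfying the change
of variables formula. -/
structure QD (k : ℝ) (w : ℂ ≃ₜ ℂ) (a b : ℂ → ℂ) : Prop where
  wd : WD univ w a b
  le : ∀ᵐ z, ‖b z‖ ≤ k * ‖a z‖
  cv : ∀ G : ℂ → ℂ, Continuous G → HasCompactSupport G →
    ∫ z, G (w z) * (jc a b z : ℂ) = ∫ z, G z

/-- `w` and its inverse are quasiconformal. -/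
def QQ (k : ℝ) (w : ℂ ≃ₜ ℂ) : Prop := (∃ a b, QD k w a b) ∧ ∃ a b, QD k w.symm a b

/-- mollifiers: a smooth probability density with support in the ball of radius `1/(n+1)`. -/
noncomputable def bmp (n : ℕ) : ContDiffBump (0 : ℂ) where
  rIn := 1 / (2 * ((n : ℝ) + 1))
  rOut := 1 / ((n : ℝ) + 1)
  rIn_pos := by positivity
  rIn_lt_rOut := by
    have : (0 : ℝ) < (n : ℝ) + 1 := by positivity
    rw [div_lt_div_iff_of_pos_left one_pos (by positivity) this]
    linarith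

/-- the density -/
noncomputable def rho (n : ℕ) (z : ℂ) : ℝ := (bmp n).normed volume z

/-- mollification -/
noncomputable def mol (n : ℕ) (g : ℂ → ℂ) (z : ℂ) : ℂ := ∫ y, (rho n (z - y) : ℂ) * g y

/-- wrap a real number into `[-N, N)` -/
noncomputable def wrap (N : ℝ) (x : ℝ) : ℝ := x - 2 * N * ⌊(x + N) / (2 * N)⌋

/-- the periodic extension of the restriction of `μ` to the square `[-N,N) × [-N,N)` -/
noncomputable def per (N : ℝ) (μ : ℂ → ℂ) (z : ℂ) : ℂ := μ ⟨wrap N z.re, wrap N z.im⟩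

/-- the smoothing operators (linear in `μ`) -/
noncomputable def sm (n : ℕ) (μ : ℂ → ℂ) : ℂ → ℂ := mol n (per ((n : ℝ) + 1) μ)

/-- iterated derivatives of order at most `s` bounded by `M` -/
def Bd : ℕ → ℝ → (ℝ × ℝ → ℂ) → Prop
  | 0, M, f => ∀ p, ‖f p‖ ≤ M
  | s + 1, M, f => (∀ p, ‖f p‖ ≤ M) ∧ Bd s M (KB.D1 f) ∧ Bd s M (KB.D2 f)

end Pool.Agent.Helper68.QC
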