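import Pool.Agent.Helper68.QC.Defs

/-!
# Interface of PART M: the statements that PART M will prove

Use them as hypotheses (`h : StEX` etc.).  `nq μ : ℂ ≃ₜ ℂ` is the normalised solution.
`Bel k μ`: `μ` measurable and `‖μ z‖ ≤ k` for all `z`.  Everything is for `k < 1`.
-/

open MeasureTheory Set Filter Topology Complex
open scoped ContDiff ComplexConjugate ENNReal

namespace Pool.Agent.Helper68.QC

/-- (EX) existence. -/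
def StEX : Prop := ∀ k < 1, ∀ μ, Bel k μ → IsNq μ (nq μ)

/-- (FAC) factorisation: any solution on an open set `U` is a holomorphic function of `nq μ`. -/
def StFAC : Prop := ∀ k < 1, ∀ μ, Bel k μ → ∀ U f, IsOpen U → Sol μ U f →
  DifferentiableOn ℂ (fun ζ => f ((nq μ).symm ζ)) (nq μ '' U)

/-- (UNI) uniqueness; the equation is only required outside a finite set. -/
def StUNI : Prop := ∀ k < 1, ∀ μ, Bel k μ → ∀ w : ℂ ≃ₜ ℂ, w 0 = 0 → w 1 = 1 →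
  ∀ S : Set ℂ, S.Finite → Sol μ Sᶜ w → w = nq μ

/-- (CNF) the solution is conformal where `μ = 0`. -/
def StCNF : Prop := ∀ k < 1, ∀ μ, Bel k μ → ∀ U, IsOpen U →
  (∀ᵐ z ∂(volume.restrict U), μ z = 0) → DifferentiableOn ℂ (nq μ) U

/-- (HOL) holomorphic dependence on parameters. -/
def StHOL : Prop := ∀ k < 1, ∀ (V : Set ℂ) (μ : ℂ → ℂ → ℂ), IsOpen V →
  (∀ t ∈ V, Bel k (μ t)) → (∀ z, DifferentiableOn ℂ (fun t => μ t z) V) →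
  ∀ z, DifferentiableOn ℂ (fun t => nq (μ t) z) V

/-- (GRO) uniform bounds. -/
def StGRO : Prop := ∀ k < 1, ∀ R : ℝ, ∃ M : ℝ, ∀ μ, Bel k μ → ∀ z, ‖z‖ ≤ R →
  ‖nq μ z‖ ≤ M ∧ ‖(nq μ).symm z‖ ≤ M

/-- (EQC) equicontinuity. -/
def StEQC : Prop := ∀ k < 1, ∀ R : ℝ, ∀ ε > 0, ∃ δ > 0, ∀ μ, Bel k μ → ∀ p q,
  ‖p‖ ≤ R → ‖q‖ ≤ R → ‖p - q‖ ≤ δ →
  ‖nq μ p - nq μ q‖ ≤ ε ∧ ‖(nq μ).symm p - (nq μ).symm q‖ ≤ ε

/-- (CON) continuous dependence on `μ` in `L¹_loc` (any filter). -/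
def StCON : Prop := ∀ k < 1, ∀ (ι : Type) (F : Filter ι) (μ : ι → ℂ → ℂ) (ν : ℂ → ℂ),
  (∀ i, Bel k (μ i)) → Bel k ν →
  (∀ R : ℝ, Tendsto (fun i => ∫ z in Metric.ball (0 : ℂ) R, ‖μ i z - ν z‖) F (𝓝 0)) →
  ∀ R : ℝ, TendstoUniformlyOn (fun i => (nq (μ i) : ℂ → ℂ)) (nq ν) F (Metric.closedBall 0 R) ∧
    TendstoUniformlyOn (fun i => ((nq (μ i)).symm : ℂ → ℂ)) (nq ν).symm F (Metric.closedBall 0 R)

/-- (CLO) compactness: limits of `nq (μ i)` along an ultrafilter. -/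
def StCLO : Prop := ∀ k < 1, ∀ (ι : Type) (F : Ultrafilter ι) (μ : ι → ℂ → ℂ),
  (∀ i, Bel k (μ i)) → ∃ ν, Bel k ν ∧ ∀ R : ℝ,
    TendstoUniformlyOn (fun i => (nq (μ i) : ℂ → ℂ)) (nq ν) F (Metric.closedBall 0 R) ∧
    TendstoUniformlyOn (fun i => ((nq (μ i)).symm : ℂ → ℂ)) (nq ν).symm F (Metric.closedBall 0 R)

/-- (CVM) derivatives, area formula: `J = ‖a‖² - ‖b‖²` is the Jacobian. -/
def StCVM : Prop := ∀ k < 1, ∀ μ, Bel k μ → ∃ a b, WD univ (nq μ) a b ∧ (∀ z, b z = μ z * a z) ∧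
  Measurable a ∧ (∀ z, a z ≠ 0) ∧
  ∀ G : ℂ → ℝ≥0∞, Measurable G →
    ∫⁻ z, G (nq μ z) * ENNReal.ofReal (‖a z‖ ^ 2 - ‖b z‖ ^ 2) = ∫⁻ z, G z

/-- (NUL) null sets. -/
def StNUL : Prop := ∀ k < 1, ∀ μ, Bel k μ → ∀ E : Set ℂ,
  volume (nq μ '' E) = 0 ↔ volume E = 0

/-- (NID) small coefficients: Lipschitz dependence at `0`. -/
def StNID : Prop := ∀ R : ℝ, ∃ C : ℝ, ∀ k, 0 ≤ k → k ≤ 1 / 2 → ∀ μ, Bel k μ → ∀ z, ‖z‖ ≤ R →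
  ‖nq μ z - z‖ ≤ C * k

/-- (LIP) Lipschitz dependence. -/
def StLIP : Prop := ∀ k < 1, ∀ R : ℝ, ∃ C : ℝ, ∀ ε, 0 ≤ ε → ∀ μ ν, Bel k μ → Bel k ν →
  (∀ z, ‖μ z - ν z‖ ≤ ε) → ∀ z, ‖z‖ ≤ R → ‖nq μ z - nq ν z‖ ≤ C * ε

/-- (CMP) compositions: `nq μ = nq ν ∘ nq κ` with the usual coefficient. -/
def StCMP : Prop := ∀ k < 1, ∀ μ κ, Bel k μ → Bel k κ → ∀ δ < 1,
  (∀ z, ‖μ z - κ z‖ ≤ δ * ‖1 - conj (κ z) * μ z‖) →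
  ∃ ν, Bel δ ν ∧ (∀ z, nq μ z = nq ν (nq κ z)) ∧
    ∀ᵐ z, ‖ν (nq κ z)‖ * ‖1 - conj (κ z) * μ z‖ = ‖μ z - κ z‖

/-- (INV) inverses. -/
def StINV : Prop := ∀ k < 1, ∀ μ, Bel k μ → ∃ ν, Bel k ν ∧ nq ν = (nq μ).symm

/-- (EQV) equivariance under Möbius transformations. -/
def StEQV : Prop := ∀ k < 1, ∀ μ, Bel k μ → ∀ A : SL, InvB A μ → ∃ B : SL, Intw A B (nq μ)

/-- (REP) the deformed representations, holomorphic in the parameter. -/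
def StREP : Prop := ∀ k < 1, ∀ (c : ℂ) (r : ℝ) (μ : ℂ → ℂ → ℂ),
  (∀ t ∈ Metric.ball c r, Bel k (μ t)) →
  (∀ z, DifferentiableOn ℂ (fun t => μ t z) (Metric.ball c r)) →
  ∀ (Γ : Type) (_ : Group Γ) (ρ₀ σ : Γ →* SL),
  (∀ t ∈ Metric.ball c r, ∀ γ, InvB (ρ₀ γ) (μ t)) →
  (∀ γ, Intw (ρ₀ γ) (σ γ) (nq (μ c))) → 0 < r →
  ∃ ρ : ℂ → Γ →* SL, ρ c = σ ∧
    (∀ γ i j, DifferentiableOn ℂ (fun t => ρ t γ i j) (Metric.ball c r)) ∧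
    ∀ t ∈ Metric.ball c r, ∀ γ, Intw (ρ₀ γ) (ρ t γ) (nq (μ t))

/-- (SYR) reflection in the real axis. -/
def StSYR : Prop := ∀ k < 1, ∀ μ, Bel k μ → (∀ᵐ z, μ (conj z) = conj (μ z)) →
  ∀ z, nq μ (conj z) = conj (nq μ z)

/-- (SYC) reflection in the unit circle. -/
def StSYC : Prop := ∀ k < 1, ∀ μ, Bel k μ →
  (∀ᵐ z : ℂ, μ (1 / conj z) * conj z ^ 2 = conj (μ z) * z ^ 2) →
  ∀ z, nq μ (1 / conj z) = 1 / conj (nq μ z)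

/-- (PRE) composition with a conformal map on the right. -/
def StPRE : Prop := ∀ (μ : ℂ → ℂ) (U V : Set ℂ) (f φ : ℂ → ℂ), IsOpen U → IsOpen V →
  DifferentiableOn ℂ φ V → InjOn φ V → MapsTo φ V U → (∀ z ∈ V, deriv φ z ≠ 0) → Sol μ U f →
  Sol (fun z => μ (φ z) * (conj (deriv φ z) / deriv φ z)) V (fun z => f (φ z))

/-- (POS) composition with a holomorphic map on the left. -/
def StPOS : Prop := ∀ (μ : ℂ → ℂ) (U W : Set ℂ) (f g : ℂ → ℂ), IsOpen U → IsOpen W →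
  DifferentiableOn ℂ g W → MapsTo f U W → Sol μ U f → Sol μ U (fun z => g (f z))

/-- (HLD) Hölder continuity. -/
def StHLD : Prop := ∀ k < 1, ∀ R : ℝ, ∃ C : ℝ, ∃ β > (0 : ℝ), ∀ μ, Bel k μ → ∀ p q,
  ‖p‖ ≤ R → ‖q‖ ≤ R → ‖nq μ p - nq μ q‖ ≤ C * ‖p - q‖ ^ β ∧
    ‖(nq μ).symm p - (nq μ).symm q‖ ≤ C * ‖p - q‖ ^ β

end Pool.Agent.Helper68.QC
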