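import Pool.Agent.Helper68.QC.Defs2
import Pool.Agent.Helper68.QC.Int
import Pool.Agent.Helper63.KB.Bij

/-!
# PART M: module statements, part 1 (geometry of smooth quasiconformal maps; periodic case)

Formulas (proved in Cal.lean): `Df(z)v = f_z v + f_z̄ v̄`, `‖Df‖ ≤ |f_z| + |f_z̄|`,
`det Df = |f_z|² - |f_z̄|²`.  For `QS k w`, `0 ≤ k < 1`, `K = (1+k)/(1-k)`:
`‖Dw‖² ≤ (|w_z| + |w_z̄|)² ≤ K (|w_z|² - |w_z̄|²) = K det Dw`, and `det Dw > 0`.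
-/

open MeasureTheory Set Filter Topology Complex
open scoped ContDiff ComplexConjugate ENNReal

namespace Pool.Agent.Helper68.QC

/-- QIN (about 120 lines).  Inverse of a smooth quasiconformal map.  Proof: `det Dw = |w_z|² - |w_z̄|² ≥ (1-k²)|w_z|² > 0`, so `Dw(z)` is invertible and `w` is a local diffeomorphism (HasStrictFDerivAt.toOpenPartialHomeomorph / isOpenMap), hence `w` (continuous, open, bijective) is a homeomorphism `W`; `W.symm` is `C^∞` at every point (OpenPartialHomeomorph.contDiffAt_symm, or `ContDiffAt.to_localInverse`).  Derivatives of `v = W.symm` at `ζ = w z`: `Dv(ζ) = Dw(z)⁻¹`, i.e. from `v ∘ w = id`, `v_ζ w_z + v_ζ̄ conj(w_z̄) = 1`, `v_ζ w_z̄ + v_ζ̄ conj(w_z) = 0` (dz_comp, dzb_comp), so `v_ζ = conj(w_z)/J`, `v_ζ̄ = -w_z̄/J`, `J = det Dw(z)`: `v_ζ ≠ 0` and `|v_ζ̄| = |w_z̄|/J ≤ k |w_z|/J = k |v_ζ|`.  Hypotheses: none. -/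
def StQIN : Prop := ∀ k < 1, ∀ w : ℂ → ℂ, QS k w → ∃ W : ℂ ≃ₜ ℂ, (∀ z, W z = w z) ∧ QS k W.symm

/-- QSD (about 110 lines).  A smooth quasiconformal map has the quasiconformal data `dz w`, `dzb w`.  Proof: `wd` is `wd_smooth`; `le` is QS.le; `cv`: change of variables (`integral_image_eq_integral_abs_det_fderiv_smul volume MeasurableSet.univ`, injective `w`, `w '' univ = univ`), `|det Dw| = det Dw = jc (dz w) (dzb w)` because `det Dw = |w_z|² - |w_z̄|² ≥ 0` (`k < 1`; note `0 ≤ k` follows from QS).  Hypotheses: none. -/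
def StQSD : Prop := ∀ k < 1, ∀ w : ℂ ≃ₜ ℂ, QS k w → QD k w (dz w) (dzb w)

/-- LEN (about 180 lines).  Length-area inequality on circles.  Proof.  Put `h(s) = s ∫_{-π}^{π} ‖Dg(c + s e^{iθ})‖² dθ`, continuous in `s`, and `E = ∫_{r<|z-c|<ρ} ‖Dg‖² = ∫_r^ρ h(s) ds` (polar coordinates `Complex.integral_comp_polarCoord_symm`, translation by `c`).  For `p = c + s e^{iα}`, `q = c + s e^{iβ}`, `-π ≤ α ≤ β ≤ π`, `g q - g p = ∫_α^β Dg(c+se^{iθ})(i s e^{iθ}) dθ`, so `‖g p - g q‖ ≤ s ∫_{-π}^{π} ‖Dg‖ dθ` and by Cauchy-Schwarz `‖g p - g q‖² ≤ 2π s² ∫ ‖Dg‖² dθ = 2π s h(s)`.  If the claim fails, every `s ∈ (r,ρ)` has `p, q` on the circle with `‖g p - g q‖² log(ρ/r) > 2πE`, so `h(s) > E/(s log(ρ/r))` on `(r,ρ)`; integrating the strict inequality between continuous functions over `[r,ρ]` gives `E > E`, a contradiction.  Hypotheses: none. -/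
def StLEN : Prop := ∀ g : ℂ → ℂ, ContDiff ℝ 1 g → ∀ (c : ℂ) (r ρ : ℝ), 0 < r → r < ρ →
  ∃ s ∈ Ioo r ρ, ∀ p ∈ Metric.sphere c s, ∀ q ∈ Metric.sphere c s,
    ‖g p - g q‖ ^ 2 * Real.log (ρ / r) ≤
      2 * Real.pi * ∫ z in {z : ℂ | r < ‖z - c‖ ∧ ‖z - c‖ < ρ}, ‖fderiv ℝ g z‖ ^ 2

/-- MON (about 70 lines).  The diameter of a bounded open set is attained on its frontier.  Proof: the path `t ↦ P + t (P - Q)`, `t ≥ 0`, starts in `V` and leaves it (`V` bounded, `P ≠ Q`), so by connectedness of an interval (`IsPreconnected.inter_frontier_nonempty` or the supremum of the times spent in `V`) there is `t₁ ≥ 0` with `P' = P + t₁ (P - Q) ∈ frontier V`; similarly `Q' = Q + t₂ (Q - P) ∈ frontier V`, `t₂ ≥ 0`; `P' - Q' = (1 + t₁ + t₂)(P - Q)`.  Hypotheses: none. -/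
def StMON : Prop := ∀ V : Set ℂ, IsOpen V → Bornology.IsBounded V → ∀ P ∈ V, ∀ Q ∈ V, P ≠ Q →
  ∃ P' ∈ frontier V, ∃ Q' ∈ frontier V, ‖P - Q‖ ≤ ‖P' - Q'‖

/-- MOD (about 120 lines).  Modulus of continuity.  Proof: `p, q ∈ closedBall c r`, `p ≠ q`.  hLEN for `g = w` gives `s ∈ (r,ρ)`.  `V = w '' ball c s` is open, bounded (contained in the compact `w '' closedBall c s`), `frontier V = w '' sphere c s` (Homeomorph.image_frontier), `w p ≠ w q ∈ V`; hMON gives `p', q' ∈ sphere c s` with `‖w p - w q‖ ≤ ‖w p' - w q'‖`; then `‖w p - w q‖² log(ρ/r) ≤ 2π ∫_{annulus} ‖Dw‖² ≤ 2πK ∫_{ball c ρ} det Dw = 2πK vol(w '' ball c ρ)` (`integral_image_eq_integral_abs_det_fderiv_smul` or the lintegral version; det Dw ≥ 0).  Hypotheses: hLEN, hMON. -/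
def StMOD : Prop := ∀ k, 0 ≤ k → k < 1 → ∀ w : ℂ ≃ₜ ℂ, QS k w → ∀ (c : ℂ) (r ρ : ℝ), 0 < r → r < ρ →
  ∀ p ∈ Metric.closedBall c r, ∀ q ∈ Metric.closedBall c r,
    ‖w p - w q‖ ^ 2 * Real.log (ρ / r) ≤
      2 * Real.pi * ((1 + k) / (1 - k)) * (volume (w '' Metric.ball c ρ)).toReal

/-- GRW (about 220 lines).  Growth of normalised maps.  Proof.  We may take `R ≥ 1`.  Fix a real smooth `β : ℂ → ℝ`, `0 ≤ β ≤ 1`, `β = 1` on `closedBall 0 (R+1)`, support in `closedBall 0 (R+2)` (ContDiffBump), `χ z = β z · z`, `C = sup ‖Dχ‖ < ∞` (compact support).  Let `w` be as in the statement, `‖z₀‖ ≤ R`, `T = ‖w z₀‖ > 1`, `v = w.symm` (QS k by hQIN).  Apply hLEN to `g = χ ∘ v`, centre `0`, radii `1 < T`: get `s ∈ (1,T)`.  `V = v '' ball 0 s` is open bounded, contains `0` and `1` (as `w 0 = 0`, `w 1 = 1`, `s > 1`), not `z₀` (`‖w z₀‖ = T > s`), frontier `Γ =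 v '' sphere 0 s`.  (i) the segment `[0,z₀]` starts in `V` and ends outside, so it meets `Γ` in a point `P`, `‖P‖ ≤ R`.  (ii) hMON for `0, 1 ∈ V`: `P', Q' ∈ Γ`, `‖P' - Q'‖ ≥ 1`, so one of them, say `Q'`, has `‖P - Q'‖ ≥ 1/2`.  (iii) `Γ` is connected (image of a circle, `isPreconnected_sphere`), so there is `Q'' ∈ Γ` with `‖P - Q''‖ = 1/2` (intermediate value).  Then `P, Q'' ∈ closedBall 0 (R+1)`, where `χ = id`, so with `p = w P, q = w Q'' ∈ sphere 0 s`: `‖g p - g q‖ = 1/2`.  hLEN: `(1/4) log T ≤ 2π ∫_{1<|ζ|<T} ‖Dg‖² ≤ 2π C² ∫_{v⁻¹(closedBall 0 (R+2))} ‖Dv‖² ≤ 2π C² K vol(closedBall 0 (R+2))` (`Dg = Dχ(v) Dv` vanishes where `v ∉ closedBall 0 (R+2)`; `‖Dv‖² ≤ K det Dv`, change of variables).  So `log T ≤ 8π C² K π (R+2)²`.  Hypotheses: hQIN, hLEN, hMON. -/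
def StGRW : Prop := ∀ k, 0 ≤ k → k < 1 → ∀ R : ℝ, ∃ M : ℝ, ∀ w : ℂ ≃ₜ ℂ, QS k w → w 0 = 0 → w 1 = 1 →
  ∀ z, ‖z‖ ≤ R → ‖w z‖ ≤ M

/-- EQS (about 90 lines).  Equicontinuity and bounds for normalised smooth maps and their inverses.  Proof: `w.symm` is `QS k` (hQIN; the `W` there equals `w`) and fixes `0, 1`, so it is enough to treat `w`.  `M` = the constant of hGRW for `R + 2`; for `‖p‖, ‖q‖ ≤ R`, `‖p - q‖ ≤ δ < 1`: hMOD with `c = p`, `r = δ`, `ρ = 1`: `‖w p - w q‖² log(1/δ) ≤ 2πK vol(closedBall 0 M) = 2πK π M²`, and `log(1/δ) → ∞`.  Hypotheses: hQIN, hMOD, hGRW. -/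
def StEQS : Prop := ∀ k, 0 ≤ k → k < 1 → ∀ R : ℝ,
  (∃ M : ℝ, ∀ w : ℂ ≃ₜ ℂ, QS k w → w 0 = 0 → w 1 = 1 → ∀ z, ‖z‖ ≤ R → ‖w z‖ ≤ M ∧ ‖w.symm z‖ ≤ M) ∧
  ∀ ε > 0, ∃ δ > 0, ∀ w : ℂ ≃ₜ ℂ, QS k w → w 0 = 0 → w 1 = 1 → ∀ p q, ‖p‖ ≤ R → ‖q‖ ≤ R →
    ‖p - q‖ ≤ δ → ‖w p - w q‖ ≤ ε ∧ ‖w.symm p - w.symm q‖ ≤ ε

/-- HLQ (about 150 lines).  Hölder continuity of normalised smooth maps.  Proof.  As in EQS it is enough to treat `w`.  For `‖p‖ ≤ R` put `D(r) = sup {‖w q - w p‖² : ‖q - p‖ ≤ r}`.  hMOD with centre `p`: `D(r) log(ρ/r) ≤ 2πK vol(w '' ball p ρ) ≤ 2πK π D(ρ)` (the image is contained in the closed ball of radius `√D(ρ)` about `w p`).  With `λ = exp(4π²K) > 1`: `D(r) ≤ D(λr)/2`.  Hence `D(λ^{-n}) ≤ 2^{-n} D(1) ≤ 2^{-n} (2M)²`, `M` from hGRW for `R+1`.  For `0 < ‖p - q‖ ≤ 1` choose `n` with `λ^{-n-1} < ‖p - q‖ ≤ λ^{-n}`: `‖w p - w q‖² ≤ 2^{-n} 4M²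 ≤ 8 M² ‖p - q‖^{log 2/log λ}`, so `β = log 2/(2 log λ)`, `C = 3M + ...`; for `‖p - q‖ > 1` use `‖w p - w q‖ ≤ 2M`.  (Real power `‖p-q‖ ^ β`, with `0 ^ β = 0`.)  Hypotheses: hQIN, hMOD, hGRW. -/
def StHLQ : Prop := ∀ k, 0 ≤ k → k < 1 → ∀ R : ℝ, ∃ C : ℝ, ∃ β > (0 : ℝ), ∀ w : ℂ ≃ₜ ℂ, QS k w → w 0 = 0 →
  w 1 = 1 → ∀ p q, ‖p‖ ≤ R → ‖q‖ ≤ R → ‖w p - w q‖ ≤ C * ‖p - q‖ ^ β ∧
    ‖w.symm p - w.symm q‖ ≤ C * ‖p - q‖ ^ β

/-- PBL (about 100 lines).  A locally bounded pointwise limit of holomorphic functions is holomorphic.  Proof: let `t₀ ∈ V`, `closedBall t₀ r ⊆ V`.  For `|t - t₀| < r`, `f_n(t) = (2πi)⁻¹ ∮_{|s-t₀|=r} f_n(s)/(s-t) ds` (`DiffContOnCl.circleIntegral_sub_inv_smul` / `two_pi_I_inv_smul_circleIntegral_sub_inv_smul_of_differentiable_on_off_countable`); by dominated convergence (`|f_n| ≤ M`) `f(t) = (2πi)⁻¹ ∮ f(s)/(s-t) ds`, where `f` is circle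 integrable (bounded pointwise limit of continuous functions), and the right side is analytic in `t` on the ball (`hasFPowerSeriesOn_cauchy_integral`).  Hypotheses: none. -/
def StPBL : Prop := ∀ (V : Set ℂ) (M : ℝ) (f : ℕ → ℂ → ℂ) (g : ℂ → ℂ), IsOpen V →
  (∀ n, DifferentiableOn ℂ (f n) V) → (∀ n, ∀ t ∈ V, ‖f n t‖ ≤ M) →
  (∀ t ∈ V, Tendsto (fun n => f n t) atTop (𝓝 (g t))) → DifferentiableOn ℂ g V

/-- KBU (about 180 lines).  Neumann series on the torus with uniform constants (all notions from Pool/Agent/Helper63/KB).  Proof: follow `KB.A_mul` and `KB.neumann_sum`, keeping the constants.  (a) for all `s`, `M ≥ 0` there is `C` with `A s (f g) ≤ C A s g` for all SP `f, g` with `Bd s M f` (same induction as `KB.A_mul`).  (b) `KB.summable_of_recur` gives `∑ a ≤ (a 0 + ∑ b)/(1 - k)`.  (c) by induction on `s`, for all `M` there is `C` such that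 for all SP `μ` with `|μ| ≤ k`, `Bd s M μ` and all `T, r, e` as in `KB.neumann_sum` (same hypotheses), `∑' A s (T n) ≤ C (A s (T 0) + ∑' A s (r n))`: the step `s → s+1` applies the case `s` to `T` and to `D v T`, whose `r` is `D v μ · Sop (T n) + D v (r n)`, `∑' A s` of it `≤ C₁ ∑' A s (T n) + ∑' A s (D v (r n))`.  (d) apply to `T = bT μ`, `r = 0`, and `A s μ ≤ C₂(M)` for `Bd s M μ` (N f ≤ M).  Partial sums: `∑_{n<m} ≤ ∑'`.  Hypotheses: none. -/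
def StKBU : Prop := ∀ k, 0 ≤ k → k < 1 → ∀ (s : ℕ) (M : ℝ), ∃ C : ℝ, ∀ μ : ℝ × ℝ → ℂ, KB.SP μ →
  (∀ p, ‖μ p‖ ≤ k) → Bd s M μ → ∀ m : ℕ, ∑ n ∈ Finset.range m, KB.A s (KB.bT μ n) ≤ C

/-- KBH (about 200 lines).  Holomorphic dependence on the torus.  Proof.  (a) by induction on `n` there are SP functions `c_{n,j}`, `j ≤ n+1`, with `bT (m₀ + t m₁) n = ∑_j t^j c_{n,j}` for all `t ∈ ℂ` (`Sop` and `Sol` are additive and homogeneous on SP functions: prove it from the Fourier formula, `ck`, `bk` linear, summability `KB.summable_ck`).  So for fixed `p`, `t ↦ ∑_{n<N} Sol (bT m_t n) p` and `t ↦ ∑_{n<N} mean (bT m_t n)` are polynomials in `t`.  (b) on `V ∩ {|t| < R}`: `Bd 4 M m_t` with `M = M₀ + R M₁` (SP functions have all iterated derivatives bounded: `Bd s M f` for some `M`, by induction on `s` with `KB.SP.bounded`, monotone in `M`), so by hKBU `∑_{n<N}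 A 4 (bT m_t n) ≤ C` and `|∑_{n<N} Sol (bT m_t n) p| ≤ 4 W0 C` (`KB.norm_Sol_le`), `|∑ mean| ≤ C` (`KB.norm_mean_le_N`, `KB.N_le_A`).  (c) for each `t ∈ V` the partial sums converge to `PS (bT m_t) 1 p`, `kap m_t 1` (`KB.PS_fam`, `KB.Fam.summable`; factors `(1:ℂ)^(n+1) = 1`).  (d) hPBL on `V ∩ ball 0 R` for every `R`.  Hypotheses: hKBU, hPBL. -/
def StKBH : Prop := ∀ k, 0 ≤ k → k < 1 → ∀ (m₀ m₁ : ℝ × ℝ → ℂ) (V : Set ℂ), KB.SP m₀ → KB.SP m₁ →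
  IsOpen V → (∀ t ∈ V, ∀ p, ‖m₀ p + t * m₁ p‖ ≤ k) →
  DifferentiableOn ℂ (fun t => KB.kap (fun p => m₀ p + t * m₁ p) 1) V ∧
  ∀ p, DifferentiableOn ℂ (fun t => KB.PS (KB.bT (fun p => m₀ p + t * m₁ p)) 1 p) V

/-- KBS (about 100 lines).  The explicit solution on the torus.  Proof: `Φ = PS (bT μ) 1` is SP (`KB.PS_sp`, `KB.bT_fam`), the equation is `KB.bel1` at `t = 1`.  Nonvanishing: `KB.beltrami` gives `κ', Φ'` with the same equation and `1 + ∂Φ' ≠ 0`; `r = Φ - Φ'` satisfies `(κ - κ') + ∂̄r = μ ∂r`, so by `KB.uniq` `∂r = 0`, `∂Φ = ∂Φ'`.  Bound: `κ + ∂̄Φ = μ(1 + ∂Φ)`, `N(κ + ∂̄Φ)² = |κ|² + N(∂̄Φ)²` and `N(1 + ∂Φ)² = 1 + N(∂Φ)²` (`KB.N_sq_const_add`, means zero), `N(∂Φ) = N(∂̄Φ)` (`KB.N_dz`), `N(μ(1+∂Φ)) ≤ k N(1+∂Φ)` (`KB.N_mul_le`): `|κ|² + x ≤ k²(1 + x)` with `x = N(∂Φ)² ≥ 0`, so `|κ|² ≤ k² - (1-k²)x ≤ k²`.  Hypotheses: none. -/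
def StKBS : Prop := ∀ k, 0 ≤ k → k < 1 → ∀ μ : ℝ × ℝ → ℂ, KB.SP μ → (∀ p, ‖μ p‖ ≤ k) →
  KB.SP (KB.PS (KB.bT μ) 1) ∧
  (∀ p, KB.kap μ 1 + KB.dzb (KB.PS (KB.bT μ) 1) p = μ p * (1 + KB.dz (KB.PS (KB.bT μ) 1) p)) ∧
  (∀ p, 1 + KB.dz (KB.PS (KB.bT μ) 1) p ≠ 0) ∧ ‖KB.kap μ 1‖ ≤ k

/-- BRG (about 200 lines).  From the torus to the plane.  Proof: put `w z = z + κ z̄ + L Φ(Re z/L, Im z/L)`, smooth.  `w_z = 1 + (∂Φ)(z/L)`, `w_z̄ = κ + (∂̄Φ)(z/L)` (chain rule; `KB.dz f p = (D₁f - i D₂f)/2`, `D₁, D₂` the partial derivatives, so with `P z = (Re z/L, Im z/L)`, `D(Φ∘P)(z)v = (Re v/L) D₁Φ + (Im v/L) D₂Φ`).  So the Beltrami equation holds, `w_z ≠ 0`, `|w_z̄| ≤ k|w_z|`.  Bijectivity: transport `w` to `ℝ × ℝ` by `Complex.equivRealProdCLM` and use `KB.bijective_of_proper_local`: the derivative is injective since `det = |w_z|² - |w_z̄|² > 0` (hence a linear equivalence,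 see `KB.exists_equiv` in Unif.lean for the pattern); proper: `Φ` is bounded (`KB.SP.bounded`), so `‖w z‖ ≥ (1 - ‖κ‖)‖z‖ - L sup|Φ|`, `‖κ‖ ≤ k < 1`.  Homeomorphism: `w` is continuous, open (local homeomorphism, `KB.isLocalHomeomorph_of_deriv`), bijective.  Hypotheses: none. -/
def StBRG : Prop := ∀ k, 0 ≤ k → k < 1 → ∀ (L : ℝ) (m Φ : ℝ × ℝ → ℂ) (κ : ℂ), 0 < L → KB.SP Φ →
  (∀ p, ‖m p‖ ≤ k) → ‖κ‖ ≤ k →
  (∀ p, κ + KB.dzb Φ p = m p * (1 + KB.dz Φ p)) → (∀ p, 1 + KB.dz Φ p ≠ 0) →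
  ∃ w : ℂ ≃ₜ ℂ, (∀ z, w z = z + κ * conj z + L * Φ (z.re / L, z.im / L)) ∧ QS k w ∧
    ∀ z, dzb w z = m (z.re / L, z.im / L) * dz w z

/-- HPS (about 150 lines).  Normalised solutions for smooth periodic coefficients, with holomorphic dependence.  Proof: `m_j(x,y) = μ_j(L(x + iy))` is SP; for `t ∈ V` hKBS and hBRG (with `Φ_t = PS (bT m_t) 1`, `κ_t = kap m_t 1`) give `w_t`, `w_t z = z + κ_t z̄ + L Φ_t(z/L)`, QS k with coefficient `m_t(z/L) = μ₀ z + t μ₁ z`.  `W_t z = (w_t z - w_t 0)/(w_t 1 - w_t 0)` (compose `w_t` with the affine homeomorphism; `w_t 1 ≠ w_t 0` by injectivity); an affine map on the left keeps QS k and the Beltrami equation.  For `t ∉ V` put `W_t = refl`.  Holomorphy in `t`: hKBH and `DifferentiableOn.div`.  Hypotheses: hKBS, hBRG, hKBH. -/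
def StHPS : Prop := ∀ k, 0 ≤ k → k < 1 → ∀ (L : ℝ) (μ₀ μ₁ : ℂ → ℂ) (V : Set ℂ), 0 < L →
  ContDiff ℝ ∞ μ₀ → ContDiff ℝ ∞ μ₁ → (∀ z, μ₀ (z + L) = μ₀ z) → (∀ z, μ₀ (z + L * I) = μ₀ z) →
  (∀ z, μ₁ (z + L) = μ₁ z) → (∀ z, μ₁ (z + L * I) = μ₁ z) → IsOpen V →
  (∀ t ∈ V, ∀ z, ‖μ₀ z + t * μ₁ z‖ ≤ k) →
  ∃ W : ℂ → ℂ ≃ₜ ℂ, (∀ t ∈ V, QS k (W t) ∧ W t 0 = 0 ∧ W t 1 = 1 ∧
      ∀ z, dzb (W t) z = (μ₀ z + t * μ₁ z) * dz (W t) z) ∧
    ∀ z, DifferentiableOn ℂ (fun t => W t z) V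

end Pool.Agent.Helper68.QC
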