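import Pool.Agent.Helper68.QC.St1

/-!
# PART M: module statements, part 2 (mollification and weak derivatives)

Bracket: `{u,v} = u_z v_z̄ - u_z̄ v_z` (bilinear, `{v,v} = 0`, derivation in each variable).
`rho n`, `mol n` are in Defs2.lean: `rho n` is smooth, nonnegative, of integral one, supported in
the closed ball of radius `1/(n+1) ≤ 1`; `mol n g z = ∫ rho n (z-y) g y dy`.
-/

open MeasureTheory Set Filter Topology Complex
open scoped ContDiff ComplexConjugate ENNReal

namespace Pool.Agent.Helper68.QC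

/-- MO1 (about 220 lines).  Elementary properties of mollification: smoothness, sup bound, support, locality, linearity, translation, derivative.  Proof: `mol n g = convolution` of `fun z => (rho n z : ℂ)` and `g` (`mul`); smoothness: `HasCompactSupport.contDiff_convolution_left` for locally integrable `g`; the others from the definition and `∫ rho n = 1` (`ContDiffBump.integral_normed`), support of `rho n` = ball of radius `1/(n+1)` (`ContDiffBump.support_normed_eq`).  Derivative: `D(mol n g)(z)v = ∫ D(rho n)(z-y)v g y dy` (`HasCompactSupport.hasFDerivAt_convolution_left` or differentiation under the integral), and `D_y[rho n (z-y)] v = -(D rho n)(z-y) v`, so `dz (mol n g) z = -∫ g y · dz (fun y => rho n (z-y)) y dy`.  Hypotheses: none. -/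
def StMO1 : Prop :=
  (∀ (n : ℕ) (g : ℂ → ℂ), LocallyIntegrable g volume → ContDiff ℝ ∞ (mol n g) ∧
    (∀ z, dz (mol n g) z = - ∫ y, g y * dz (fun y => (rho n (z - y) : ℂ)) y) ∧
    (∀ z, dzb (mol n g) z = - ∫ y, g y * dzb (fun y => (rho n (z - y) : ℂ)) y)) ∧
  (∀ (n : ℕ) (z : ℂ), Tst (Metric.closedBall z (1 / ((n : ℝ) + 1))) (fun y => (rho n (z - y) : ℂ))) ∧
  (∀ (n : ℕ) (g : ℂ → ℂ) (C : ℝ), 0 ≤ C → (∀ z, ‖g z‖ ≤ C) → ∀ z, ‖mol n g z‖ ≤ C) ∧
  (∀ (n : ℕ) (g : ℂ → ℂ) (R : ℝ), (∀ z, R < ‖z‖ → g z = 0) → ∀ z, R + 1 < ‖z‖ → mol n g z = 0) ∧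
  (∀ (n : ℕ) (g h : ℂ → ℂ) (z : ℂ), (∀ y, ‖y - z‖ ≤ 1 / ((n : ℝ) + 1) → g y = h y) →
    mol n g z = mol n h z) ∧
  (∀ (n : ℕ) (g h : ℂ → ℂ) (c z : ℂ), LocallyIntegrable g volume → LocallyIntegrable h volume →
    mol n (fun y => g y + c * h y) z = mol n g z + c * mol n h z) ∧
  (∀ (n : ℕ) (g : ℂ → ℂ) (v z : ℂ), mol n (fun y => g (y + v)) z = mol n g (z + v))

/-- MO2 (about 180 lines).  Convergence of mollifications.  Proof.  (i) continuous compactly supported `g` is uniformly continuous and `‖mol n g z - g z‖ ≤ sup_{‖y-z‖ ≤ 1/(n+1)} ‖g y - g z‖`.  (ii) `‖mol n g‖_{L²} ≤ ‖g‖_{L²}`: Cauchy-Schwarz with the probability density gives `‖mol n g z‖² ≤ ∫ rho n (z-y) ‖g y‖² dy`, and Tonelli (use `ℝ≥0∞`-valued integrals: `‖∫ f‖ₑ ≤ ∫⁻ ‖f‖ₑ`, `lintegral` Hölder / Jensen, `lintegral_lintegral_swap`, translation invariance).  (iii) for `g ∈ L²` and `ε > 0` take `h` continuous compactly supported with `‖g - h‖₂ ≤ ε` (`MemLp.exists_hasCompactSupport_eLpNorm_sub_le`);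 `‖mol n g - g‖₂ ≤ ‖mol n (g-h)‖₂ + ‖mol n h - h‖₂ + ‖h - g‖₂ ≤ 2ε + ‖mol n h - h‖₂` and `mol n h → h` uniformly with supports in a fixed ball (linearity from hMO1; `L²` functions are locally integrable).  Hypotheses: hMO1. -/
def StMO2 : Prop :=
  (∀ g : ℂ → ℂ, Continuous g → HasCompactSupport g → TendstoUniformly (fun n => mol n g) g atTop) ∧
  (∀ g : ℂ → ℂ, MemLp g 2 volume →
    Tendsto (fun n => eLpNorm (fun z => mol n g z - g z) 2 volume) atTop (𝓝 0))

/-- CUT (about 100 lines).  Cutting off.  Proof: `χ f` vanishes outside `S = tsupport χ`, a compact subset of `U`, and is continuous (at points of `U` product of continuous functions, near points outside `S` zero); `a` is in `L²(S)`, `χ`, `χ_z`, `f` are bounded on `S`, so the derivatives are in `L²(ℂ)`.  For a test function `φ`: `χφ ∈ Tst U`, `(χφ)_z = χ_z φ + χ φ_z`, so `∫ χ f φ_z = ∫ f (χφ)_z - ∫ f χ_z φ = -∫ a χ φ - ∫ f χ_z φ` (all integrands supported in `S`, integrable).  Same for `z̄`.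  Hypotheses: none. -/
def StCUT : Prop := ∀ (U : Set ℂ) (f a b χ : ℂ → ℂ), IsOpen U → WD U f a b → Tst U χ →
  Continuous (fun z => χ z * f z) ∧
  MemLp (fun z => χ z * a z + dz χ z * f z) 2 volume ∧
  MemLp (fun z => χ z * b z + dzb χ z * f z) 2 volume ∧
  WD univ (fun z => χ z * f z) (fun z => χ z * a z + dz χ z * f z)
    (fun z => χ z * b z + dzb χ z * f z)

/-- APX (about 150 lines).  Local approximation by smooth functions.  Proof: choose `χ ∈ Tst U` with `χ = 1` on an open set `N ⊇ K` (`exists_contDiff_tsupport_subset` / `exists_smooth_one_nhds_of_subset_interior`, or `ContDiffBump` covering; cast to `ℂ`), `F = χ f`, `A = χa + χ_z f`, `B` as in hCUT, `g n = mol n F` (smooth, hMO1).  `dz (g n) z = -∫ F · dz(rho n(z-·)) = ∫ A · rho n(z-·) = mol n A z` by the derivative formula in hMO1 and the weak derivative tested against `rho n (z-·)`.  So `dz (g n) → A` in `L²(ℂ)` (hMO2), `g n → F` uniformly; on `K`: `F = f`, `A = a`, `B = b` (`χ = 1`,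 `dz χ = 0` on `N`).  Hypotheses: hMO1, hMO2, hCUT. -/
def StAPX : Prop := ∀ (U : Set ℂ) (f a b : ℂ → ℂ), IsOpen U → WD U f a b → ∀ K ⊆ U, IsCompact K →
  ∃ g : ℕ → ℂ → ℂ, (∀ n, ContDiff ℝ ∞ (g n)) ∧ TendstoUniformlyOn g f atTop K ∧
    Tendsto (fun n => eLpNorm (fun z => dz (g n) z - a z) 2 (volume.restrict K)) atTop (𝓝 0) ∧
    Tendsto (fun n => eLpNorm (fun z => dzb (g n) z - b z) 2 (volume.restrict K)) atTop (𝓝 0)

/-- UNW (about 80 lines).  Uniqueness of weak derivatives.  Proof: `c = a - a'` is locally square integrable, hence locally integrable on `U`, and `∫ c φ = 0` for all `φ ∈ Tst U` (the integrals `∫ f dz φ` and `∫ f' dz φ` agree since `dz φ = 0` outside `U`); with `φ` the cast of a real test function use `IsOpen.ae_eq_zero_of_integral_contDiff_smul_eq_zero`.  Hypotheses: none. -/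
def StUNW : Prop := ∀ (U : Set ℂ) (f f' a b a' b' : ℂ → ℂ), IsOpen U → EqOn f f' U →
  WD U f a b → WD U f' a' b' →
  (∀ᵐ z ∂(volume.restrict U), a z = a' z) ∧ (∀ᵐ z ∂(volume.restrict U), b z = b' z)

/-- TRI (about 130 lines).  Continuity of trilinear integrals.  Proof: `F_n A_n B_n - f a b = (F_n - f) A_n B_n + f (A_n - a) B_n + f a (B_n - b)`; `|∫_K| ≤ sup_K|F_n - f| ‖A_n‖₂‖B_n‖₂ + sup_K|f| ‖A_n - a‖₂ ‖B_n‖₂ + sup_K |f| ‖a‖₂ ‖B_n - b‖₂` (Hölder), norms of `A_n, B_n` bounded eventually.  Hypotheses: none. -/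
def StTRI : Prop := ∀ (K : Set ℂ) (F A B : ℕ → ℂ → ℂ) (f a b : ℂ → ℂ), IsCompact K →
  (∀ n, ContinuousOn (F n) K) → ContinuousOn f K → TendstoUniformlyOn F f atTop K →
  (∀ n, MemLp (A n) 2 (volume.restrict K)) → MemLp a 2 (volume.restrict K) →
  (∀ n, MemLp (B n) 2 (volume.restrict K)) → MemLp b 2 (volume.restrict K) →
  Tendsto (fun n => eLpNorm (fun z => A n z - a z) 2 (volume.restrict K)) atTop (𝓝 0) →
  Tendsto (fun n => eLpNorm (fun z => B n z - b z) 2 (volume.restrict K)) atTop (𝓝 0) →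
  Tendsto (fun n => ∫ z in K, F n z * A n z * B n z) atTop (𝓝 (∫ z in K, f z * a z * b z))

/-- IBP (about 200 lines).  Integration by parts for the bracket: `∫ χ (f{u,v} + u{f,v}) = -∫ f u {χ,v}`.  Proof.  For smooth `f, u, v` and `χ ∈ Tst`: `χfu ∈ Tst`, `∫ {χfu, v} = 0` (`integral_bracket` in Cal.lean), and `{χfu,v} = χ f {u,v} + χ u {f,v} + f u {χ,v}` (dz_mul, dzb_mul).  In general let `K = tsupport χ ⊆ U`, take the approximations `f_n, u_n, v_n` of hAPX on `K`; every integrand is `0` outside `K` (`χ`, `dz χ`, `dzb χ` vanish there), so all integrals are over `K`; expand into the terms `χ f a_u b_v`, etc., each of the form (continuous) × (L²) × (L²) or, for `f u χ_z b_v`, (continuous) × (1) × (L²), and pass to the limit with hTRI (`F n = χ f_n` etc.; constants `1` are in `L²(K)`).  Hypotheses: hAPX, hTRI. -/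
def StIBP : Prop := ∀ (U : Set ℂ) (f af bf u au bu v av bv χ : ℂ → ℂ), IsOpen U → WD U f af bf →
  WD U u au bu → WD U v av bv → Tst U χ →
  ∫ z, χ z * (f z * (au z * bv z - bu z * av z) + u z * (af z * bv z - bf z * av z)) =
    - ∫ z, f z * u z * (dz χ z * bv z - dzb χ z * av z)

/-- IBC (about 150 lines).  The same with `u` compactly supported in `U`.  Proof: take `χ ∈ Tst U` with `χ = 1` on an open `N`, `K ⊆ N ⊆ U`.  On the open set `U \ K` both `WD (U \ K) u au bu` and `WD (U \ K) u 0 0` hold (`u = 0` there), so `au = bu = 0` a.e. on `U \ K` (hUNW).  hIBP: the left side is `∫_U f{u,v} + ∫_U u{f,v}` (on `K` `χ = 1`; a.e. on `U \ K` everything vanishes; the integrals are finite: (bounded) × L² × L² on the compact `K`), the right side is `0` (`dz χ = dzb χ = 0` on `N`, `u = 0` off `K`).  Hypotheses: hIBP, hUNW. -/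
def StIBC : Prop := ∀ (U : Set ℂ) (f af bf u au bu v av bv : ℂ → ℂ) (K : Set ℂ), IsOpen U →
  WD U f af bf → WD U u au bu → WD U v av bv → IsCompact K → K ⊆ U → (∀ z ∈ U, z ∉ K → u z = 0) →
  ∫ z in U, f z * (au z * bv z - bu z * av z) = - ∫ z in U, u z * (af z * bv z - bf z * av z)

/-- CHR (about 200 lines).  Chain rule `F ∘ w`, `F` smooth on an open set.  Proof.  Locally square integrable: on a compact `K ⊆ U` the coefficients `dz F (w z)`, `dzb F (w z)` are continuous, hence bounded.  Let `φ ∈ Tst U`, `K = tsupport φ`, `K' = w '' K` compact `⊆ W`; `χ ∈ Tst W`, `χ = 1` on an open `N ⊇ K'`; `G = χF` (extended by `0`) is in `Tst univ`, and on `K`: `G ∘ w = F ∘ w`, `dz G (w z) = dz F (w z)`, `dzb G (w z) = dzb F (w z)`.  hAPX for `w` on `K`: `g_n`.  `ibp_dz`: `∫ G(g_n) dz φ = -∫ (dz G (g_n) dz g_n + dzb G (g_n) conj(dzb g_n)) φ`; `G`, `dz G`, `dzb G` are uniformly continuous, so `G(g_n) → G(w)` etc. uniformly on `K`; pass to the limit (hTRI with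 `A` or `B` equal to `1`; `conj` is an isometry of `L²`).  Same for `z̄`.  Hypotheses: hAPX, hTRI. -/
def StCHR : Prop := ∀ (U W : Set ℂ) (w a b F : ℂ → ℂ), IsOpen U → IsOpen W → WD U w a b →
  MapsTo w U W → ContDiffOn ℝ ∞ F W →
  WD U (fun z => F (w z)) (fun z => dz F (w z) * a z + dzb F (w z) * conj (b z))
    (fun z => dz F (w z) * b z + dzb F (w z) * conj (a z))

/-- POX (about 50 lines), statement `StPOS` in Int.lean: composition with a holomorphic map on the left.  Proof: hCHR with `F = g` (`ContDiffOn ℝ ∞` because holomorphic on an open set), `dz g = g'`, `dzb g = 0` on `W` (Cal.lean): the derivatives of `g ∘ f` are `g'(f) a`, `g'(f) b`, and `b = μ a` a.e. on `U`.  Hypotheses: none. -/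
def StPOX : Prop := StCHR → StPOS

/-- PRW (about 250 lines).  Composition with a conformal map on the right, weak derivatives.  Proof.  `φ` is injective holomorphic with `φ' ≠ 0` on the open set `V`; `Y = φ '' V` is open, the inverse `θ : Y → V` is holomorphic (inverse function theorem).  `L²`: for compact `K ⊆ V`, `∫_K ‖a(φ)φ'‖² = ∫_{φ(K)} ‖a‖²` (change of variables, `|det Dφ| = |φ'|²`).  Let `ψ ∈ Tst V`; `η(ζ) = ψ(θ ζ) / conj(φ'(θ ζ))` on `Y`, `0` elsewhere, is in `Tst Y ⊆ Tst U`, and `ψ = (η ∘ φ) conj φ'` on `V`.  `conj φ'` is antiholomorphic, so `ψ_z = (η_ζ ∘ φ) φ' conj φ' = (η_ζ ∘ φ) |φ'|²`.  Change of variables (`integral_image_eq_integral_abs_det_fderiv_smul`): `∫_V f(φ) ψ_z = ∫_Y f η_ζ = -∫_Y a η = -∫_V a(φ) (η∘φ) |φ'|² = -∫_V a(φ) φ' ψ`.  For `z̄` use `η = (ψ/φ') ∘ θ`: `ψ_z̄ = (η_ζ̄ ∘ φ)|φ'|²`, `∫ f(φ) ψ_z̄ = -∫_V b(φ) conj φ' ψ`.  Hypotheses: none. -/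
def StPRW : Prop := ∀ (U V : Set ℂ) (f a b φ : ℂ → ℂ), IsOpen U → IsOpen V →
  DifferentiableOn ℂ φ V → InjOn φ V → MapsTo φ V U → (∀ z ∈ V, deriv φ z ≠ 0) → WD U f a b →
  WD V (fun z => f (φ z)) (fun z => a (φ z) * deriv φ z) (fun z => b (φ z) * conj (deriv φ z))

/-- PRX (about 80 lines), statement `StPRE` in Int.lean: composition with a conformal map on the right, Beltrami equation.  Proof: hPRW; the equation `b = μ a` holds on `U` outside a null set `N`, and `V ∩ φ⁻¹(N)` is null: it is the image of `N ∩ φ(V)` under the holomorphic inverse of `φ` (`addHaar_image_eq_zero_of_differentiableOn_of_addHaar_eq_zero`).  At the other points `b(φ) conj φ' = μ(φ) (conj φ'/φ') · a(φ) φ'`.  Hypotheses: none. -/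
def StPRX : Prop := StPRW → StPRE

/-- WEY (about 150 lines).  Weyl's lemma.  Proof: let `z₀ ∈ U`, `closedBall z₀ (3r) ⊆ U`, `χ ∈ Tst U` with `χ = 1` on `closedBall z₀ (2r)`, `F = χ f` (continuous, compact support), `F_n = mol n F`.  For `n` with `1/(n+1) ≤ r` and `‖z - z₀‖ < r`: `dzb F_n z = -∫ F y dzb(rho n(z-·)) y dy` (hMO1) `= -∫ f y dzb (rho n (z-·)) y dy = 0`, since `rho n (z-·)` is a test function supported in `closedBall z (1/(n+1)) ⊆ closedBall z₀ (2r)`, where `F = f`.  So `F_n` is holomorphic on `ball z₀ r` (`holo_of_dzb`), and `F_n → F = f` uniformly (hMO2), hence `f` is holomorphic there (`TendstoLocallyUniformlyOn.differentiableOn`).  Hypotheses: hMO1, hMO2. -/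
def StWEY : Prop := ∀ (U : Set ℂ) (f : ℂ → ℂ), IsOpen U → ContinuousOn f U →
  (∀ φ, Tst U φ → ∫ z, f z * dzb φ z = 0) → DifferentiableOn ℂ f U

/-- SMO (about 220 lines).  Smoothing operators.  Proof.  `N = n+1`, `per N μ` is measurable, `2N`-periodic in both directions (`wrap N (x + 2N) = wrap N x`), bounded by `C`, equal to `μ` on the square `[-N,N)²` (`wrap N x = x` there, as the integer part is `0`), linear in `μ`.  So `sm n μ = mol n (per N μ)` is smooth, periodic (translation rule in hMO1), bounded, linear (bounded measurable functions are locally integrable).  Convergence: fix `R`; for `n > R + 2`, on `closedBall 0 R` only the values on `closedBall 0 (R+1) ⊆ [-N,N)²` matter, so `sm n μ z = mol n (μ 1_{closedBall 0 (R+1)}) z` (locality in hMO1), which tends to `μ` in `L²(closedBall 0 R)` by hMO2, hence in `L¹` (Cauchy-Schwarz, finite measure).  Hypotheses: hMO1, hMO2. -/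
def StSMO : Prop :=
  (∀ (n : ℕ) (C : ℝ) (μ : ℂ → ℂ), Measurable μ → (∀ z, ‖μ z‖ ≤ C) → ContDiff ℝ ∞ (sm n μ) ∧
    (∀ z, ‖sm n μ z‖ ≤ C) ∧ (∀ z, sm n μ (z + (2 * ((n : ℝ) + 1) : ℝ)) = sm n μ z) ∧
    (∀ z, sm n μ (z + (2 * ((n : ℝ) + 1) : ℝ) * I) = sm n μ z)) ∧
  (∀ (n : ℕ) (C : ℝ) (μ ν : ℂ → ℂ) (t : ℂ), Measurable μ → Measurable ν → (∀ z, ‖μ z‖ ≤ C) →
    (∀ z, ‖ν z‖ ≤ C) → ∀ z, sm n (fun y => μ y + t * ν y) z = sm n μ z + t * sm n ν z) ∧
  (∀ (C : ℝ) (μ : ℂ → ℂ), Measurable μ → (∀ z, ‖μ z‖ ≤ C) → ∀ R : ℝ,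
    Tendsto (fun n => ∫ z in Metric.ball (0 : ℂ) R, ‖sm n μ z - μ z‖) atTop (𝓝 0))

end Pool.Agent.Helper68.QC
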