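import Pool.Agent.Helper68.QC.St2

/-!
# PART M: module statements, part 3 (limits, existence, factorisation, uniqueness)

`WK F g a`: weak convergence against `L²` functions of bounded support; `LU F W w`: locally
uniform convergence of homeomorphisms and inverses; `EB a b`: uniform local energy bounds;
`jc a b = ‖a‖² - ‖b‖²`; `QD k w a b`: see Defs2.lean.
-/

open MeasureTheory Set Filter Topology Complex
open scoped ContDiff ComplexConjugate ENNReal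

namespace Pool.Agent.Helper68.QC

/-- WKL (about 220 lines).  Weak limits in `L²_loc` along an ultrafilter.  Proof.  Let `β_n ≥ 0` bound `∫_{closedBall 0 (n+1)} ‖g_i‖²` for all `i`, `n z = ⌊‖z‖⌋₊`, `θ z = 1/(2^(n z) (1 + β_(n z))) > 0`, measurable, bounded below by a positive constant on bounded sets.  `∫ θ²‖g_i‖² = ∑_n ∫_{n ≤ ‖z‖ < n+1} ≤ ∑ 4^(-n) β_n/(1+β_n)² ≤ 2`, so `x_i = θ g_i ∈ L²(ℂ)`, `‖x_i‖ ≤ 2` (`g_i` is a.e. strongly measurable on every ball).  For `y ∈ Lp ℂ 2 volume`, `i ↦ ∫ x_i y` has values in a closed ball of `ℂ`, so it has a limit `Λ y` along the ultrafilter (`IsCompact.ultrafilter_le_nhds`), linear in `y`, `|Λ y| ≤ 2‖y‖`; Riesz (`InnerProductSpace.toDual`): `Λ y = ∫ x y` for some `x ∈ L²` (conjugate the representing vector), take a measurable representative of `x` and `a = x/θ`.  For `ψ ∈ L²` of bounded support, `ψ/θ ∈ L²`, `∫ g_i ψ = ∫ x_i (ψ/θ) → ∫ x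 (ψ/θ) = ∫ a ψ`.  Hypotheses: none. -/
def StWKL : Prop := ∀ (ι : Type) (F : Ultrafilter ι) (g : ι → ℂ → ℂ), (∀ i, L2 univ (g i)) →
  (∀ R : ℝ, ∃ B : ℝ, ∀ i, ∫ z in Metric.closedBall (0 : ℂ) R, ‖g i z‖ ^ 2 ≤ B) →
  ∃ a : ℂ → ℂ, Measurable a ∧ L2 univ a ∧ WK F g a

/-- LWD (about 80 lines).  Weak derivatives pass to the limit.  Proof: `w` is continuous (locally uniform limit).  For a test function `φ`: `∫ W_i dz φ → ∫ w dz φ` (uniform convergence on the support, `dz φ` integrable) and `∫ a_i φ → ∫ a' φ` (`φ ∈ L²`, bounded support); limits are unique.  Hypotheses: none. -/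
def StLWD : Prop := ∀ (ι : Type) (F : Ultrafilter ι) (W a b : ι → ℂ → ℂ) (w a' b' : ℂ → ℂ),
  (∀ i, WD univ (W i) (a i) (b i)) →
  (∀ R : ℝ, TendstoUniformlyOn W w F (Metric.closedBall 0 R)) → L2 univ a' → L2 univ b' →
  WK F a a' → WK F b b' → WD univ w a' b'

/-- JIB (about 60 lines).  The Jacobian as a distribution.  Proof: hIBP with `f = 1` (derivatives `0`, `wd_smooth`), `u = w`, `v = conj w` (weak derivatives `conj b`, `conj a`: hCHR with `F = conj`, or directly by conjugating the test functions), `χ = ψ`: `∫ ψ (a conj a - b conj b) = -∫ w (ψ_z conj a - ψ_z̄ conj b)`.  Hypotheses: hIBP, hCHR. -/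
def StJIB : Prop := ∀ w a b ψ : ℂ → ℂ, WD univ w a b → Tst univ ψ →
  ∫ z, ψ z * (jc a b z : ℂ) = - ∫ z, w z * (dz ψ z * conj (a z) - dzb ψ z * conj (b z))

/-- LJA (about 200 lines).  Jacobians converge weakly.  Proof.  (i) `ψ ∈ Tst univ`: by hJIB `∫ ψ J_i = -∫ W_i (ψ_z conj a_i - ψ_z̄ conj b_i)`; `∫ (W_i - w) ψ_z conj a_i → 0` (sup norm of `W_i - w` on the support times `‖ψ_z‖₂ ‖a_i‖_{L²(ball)}`, bounded by EB), and `∫ w ψ_z conj a_i → ∫ w ψ_z conj a'` (conjugate the weak convergence; `conj(w ψ_z)` is in `L²` with bounded support); so the limit is `-∫ w(ψ_z conj a' - ψ_z̄ conj b') = ∫ ψ J'`.  (ii) `ψ` continuous with support in `closedBall 0 R`: `ψ_n = mol n ψ ∈ Tst univ`, support in `closedBall 0 (R+1)`, `sup|ψ_n - ψ| = ε_n → 0` (hMO1, hMO2), and `|∫ (ψ - ψ_n) J_i| ≤ ε_n B(R+1)` for all `i`, likewise `≤ ε_n C` for the limit; conclude by `ε/3`.  Hypotheses: hJIB, hMO1,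 hMO2. -/
def StLJA : Prop := ∀ (ι : Type) (F : Ultrafilter ι) (W a b : ι → ℂ → ℂ) (w a' b' : ℂ → ℂ),
  (∀ i, WD univ (W i) (a i) (b i)) → WD univ w a' b' →
  (∀ R : ℝ, TendstoUniformlyOn W w F (Metric.closedBall 0 R)) → EB a b →
  WK F a a' → WK F b b' → ∀ ψ : ℂ → ℂ, Continuous ψ → HasCompactSupport ψ →
  Tendsto (fun i => ∫ z, ψ z * (jc (a i) (b i) z : ℂ)) F (𝓝 (∫ z, ψ z * (jc a' b' z : ℂ)))

/-- LCV (about 130 lines).  The change of variables formula passes to the limit.  Proof: let `G` vanish outside `closedBall 0 R`.  `(W i).symm → w.symm` uniformly on `closedBall 0 R`, so for `F`-almost all `i` the functions `G ∘ W_i` and `G ∘ w` vanish outside a fixed `closedBall 0 R'` (if `G(W_i z) ≠ 0` then `z = W_i.symm(W_i z)`, bounded).  `G ∘ W_i → G ∘ w` uniformly on `closedBall 0 R'` (`G` uniformly continuous).  `∫ G = ∫ G(W_i) J_i = ∫ (G(W_i) - G(w)) J_i + ∫ G(w) J_i`; the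 first term is at most `sup · B(R') → 0` (`|J_i| ≤ ‖a_i‖² + ‖b_i‖²`), the second tends to `∫ G(w) J'` by hLJA.  Hypotheses: hLJA. -/
def StLCV : Prop := ∀ (k : ℝ) (ι : Type) (F : Ultrafilter ι) (W : ι → ℂ ≃ₜ ℂ) (a b : ι → ℂ → ℂ)
  (w : ℂ ≃ₜ ℂ) (a' b' : ℂ → ℂ), (∀ i, QD k (W i) (a i) (b i)) → WD univ w a' b' → LU F W w → EB a b →
  WK F a a' → WK F b b' → ∀ G : ℂ → ℂ, Continuous G → HasCompactSupport G →
  ∫ z, G (w z) * (jc a' b' z : ℂ) = ∫ z, G z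

/-- LKK (about 150 lines).  The dilatation bound passes to the limit.  Proof: let `ψ ≥ 0` be real, continuous, compactly supported.  `∫ ψ J_i ≥ (1-k²) ∫ ψ‖a_i‖²` and `0 ≤ ∫ ψ‖a_i - a'‖² = ∫ ψ‖a_i‖² - 2 Re ∫ ψ a_i conj a' + ∫ ψ‖a'‖²`, where `∫ ψ a_i conj a' → ∫ ψ‖a'‖²` (`ψ conj a' ∈ L²`, bounded support); so `∫ ψ J' = lim ∫ ψ J_i ≥ (1-k²) ∫ ψ‖a'‖²`, i.e. `∫ ψ (k²‖a'‖² - ‖b'‖²) ≥ 0` for all such `ψ`.  Hence the locally integrable function `k²‖a'‖² - ‖b'‖²` is `≥ 0` a.e. (e.g. for its restriction to a ball approximate the indicator of the negative set by continuous functions, or `ae_nonneg_of_forall_setIntegral_nonneg` after passing to indicators of compact sets as decreasing limits).  Hypotheses: none. -/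
def StLKK : Prop := ∀ (k : ℝ) (ι : Type) (F : Ultrafilter ι) (a b : ι → ℂ → ℂ) (a' b' : ℂ → ℂ),
  0 ≤ k → k < 1 → (∀ i, L2 univ (a i)) → (∀ i, L2 univ (b i)) → (∀ i, ∀ᵐ z, ‖b i z‖ ≤ k * ‖a i z‖) →
  L2 univ a' → L2 univ b' → WK F a a' →
  (∀ ψ : ℂ → ℂ, Continuous ψ → HasCompactSupport ψ →
    Tendsto (fun i => ∫ z, ψ z * (jc (a i) (b i) z : ℂ)) F (𝓝 (∫ z, ψ z * (jc a' b' z : ℂ)))) →
  ∀ᵐ z, ‖b' z‖ ≤ k * ‖a' z‖

/-- ENB (about 110 lines).  Energy bound.  Proof: we may take `M ≥ 0`; `G ζ = max 0 (min 1 (M + 1 - ‖ζ‖))` is continuous with compact support, `0 ≤ G ≤ 1`, `G = 1` on `closedBall 0 M`.  `J = jc a b ≥ (1-k²)‖a‖² ≥ 0` a.e., so `∫_{closedBall 0 R} J ≤ ∫ G(w) J = ∫ G ≤ vol (closedBall 0 (M+1))`, and `‖a‖² + ‖b‖² ≤ ((1+k²)/(1-k²)) J` a.e. (integrability: `a, b ∈ L²` on compact sets, `G ∘ w` has compact support).  Hypotheses: none. -/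
def StENB : Prop := ∀ k, 0 ≤ k → k < 1 → ∀ R M : ℝ, ∃ B : ℝ, ∀ (w : ℂ ≃ₜ ℂ) (a b : ℂ → ℂ), QD k w a b →
  (∀ z, ‖z‖ ≤ R → ‖w z‖ ≤ M) → ∫ z in Metric.closedBall (0 : ℂ) R, (‖a z‖ ^ 2 + ‖b z‖ ^ 2) ≤ B

/-- LQD (about 90 lines).  Limits of quasiconformal maps.  Proof: EB from hENB and the bounds; hWKL gives `a', b'` (`∫ ‖a_i‖² ≤ ∫ (‖a_i‖² + ‖b_i‖²)`); hLWD, hLJA, hLKK, hLCV give the three fields of QD.  Hypotheses: hWKL, hLWD, hLJA, hLCV, hLKK, hENB. -/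
def StLQD : Prop := ∀ (k : ℝ) (ι : Type) (F : Ultrafilter ι) (W : ι → ℂ ≃ₜ ℂ) (w : ℂ ≃ₜ ℂ)
  (a b : ι → ℂ → ℂ), 0 ≤ k → k < 1 → (∀ i, QD k (W i) (a i) (b i)) → LU F W w →
  (∀ R : ℝ, ∃ M : ℝ, ∀ i, ∀ z, ‖z‖ ≤ R → ‖W i z‖ ≤ M) →
  EB a b ∧ ∃ a' b' : ℂ → ℂ, Measurable a' ∧ Measurable b' ∧ QD k w a' b' ∧ WK F a a' ∧ WK F b b'

/-- LBE (about 130 lines).  The Beltrami equation passes to the limit.  Proof: `φ` a test function with support in `ball 0 R`: `∫ b_i φ → ∫ b' φ`; `∫ b_i φ = ∫ μ_i a_i φ = ∫ ν a_i φ + ∫ (μ_i - ν) a_i φ`, the first tends to `∫ ν a' φ` (`ν φ ∈ L²`, bounded support), the second is at most `sup|φ| ‖a_i‖_{L²(ball 0 R)} ‖μ_i - ν‖_{L²(ball 0 R)}` and `‖μ_i - ν‖²_{L²(ball)} ≤ 2k ‖μ_i - ν‖_{L¹(ball)} → 0`.  So `∫ (b' - ν a') φ = 0` for all test functions and `b' = ν a'` a.e. (`ae_eq_zero_of_integral_contDiff_smul_eq_zero`).  Hypotheses: none. -/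
def StLBE : Prop := ∀ (k : ℝ) (ι : Type) (F : Ultrafilter ι) (μ a b : ι → ℂ → ℂ) (ν a' b' : ℂ → ℂ),
  (∀ i, Bel k (μ i)) → Bel k ν →
  (∀ R : ℝ, Tendsto (fun i => ∫ z in Metric.ball (0 : ℂ) R, ‖μ i z - ν z‖) F (𝓝 0)) →
  (∀ i, L2 univ (a i)) → (∀ i, L2 univ (b i)) → EB a b → (∀ i, ∀ᵐ z, b i z = μ i z * a i z) →
  L2 univ a' → L2 univ b' → WK F a a' → WK F b b' → ∀ᵐ z, b' z = ν z * a' z

/-- LIM (about 180 lines).  Compactness for equicontinuous homeomorphisms.  Proof: `w z = lim_F W_i z`, `v z = lim_F (W_i).symm z` exist (bounded, `IsCompact.ultrafilter_le_nhds`).  The moduli of continuity pass to the limits, so `w, v` are continuous; convergence is uniform on `closedBall 0 R`: given `ε` take `δ` from the equicontinuity on `closedBall 0 R`, a finite `δ`-net, and convergence at the points of the net.  `w (v ζ) = ζ`: `‖W_i (v ζ) - ζ‖ = ‖W_i (v ζ) - W_i (W_i.symm ζ)‖ ≤ ε`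 as soon as `‖v ζ - W_i.symm ζ‖ ≤ δ` (both points in a fixed ball), and `W_i (v ζ) → w (v ζ)`; symmetric for `v (w z) = z`.  So `w` is a homeomorphism with inverse `v`.  Hypotheses: none. -/
def StLIM : Prop := ∀ (ι : Type) (F : Ultrafilter ι) (W : ι → ℂ ≃ₜ ℂ),
  (∀ R : ℝ, ∃ M : ℝ, ∀ i z, ‖z‖ ≤ R → ‖W i z‖ ≤ M ∧ ‖(W i).symm z‖ ≤ M) →
  (∀ R : ℝ, ∀ ε > 0, ∃ δ > 0, ∀ i p q, ‖p‖ ≤ R → ‖q‖ ≤ R → ‖p - q‖ ≤ δ →
    ‖W i p - W i q‖ ≤ ε ∧ ‖(W i).symm p - (W i).symm q‖ ≤ ε) →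
  ∃ w : ℂ ≃ₜ ℂ, LU F W w

/-- EXS (about 160 lines).  Existence.  Proof: `F = hyperfilter ℕ` (an ultrafilter finer than `atTop`), `μ_n = sm n μ` (hSMO: smooth, periodic of period `L = 2(n+1)`, `‖μ_n‖ ≤ k`, `μ_n → μ` in `L¹` of balls).  hHPS with `μ₀ = μ_n`, `μ₁ = 0`, `V = univ`, at `t = 0`: `W_n` with QS k, fixing `0, 1`, coefficient `μ_n`.  hEQS (on balls) and hLIM: `LU F W w`; `w 0 = 0`, `w 1 = 1`.  hQSD: `QD k (W n) (dz ..) (dzb ..)`; hLQD: `QD k w a' b'`, weak convergence, EB; hLBE: `b' = μ a'` a.e.  For the inverse: `(W n).symm` is QS k (hQIN), hQSD, `LU F (W ·).symm w.symm`, hLQD.  Hypotheses: hSMO, hHPS, hEQS, hLIM, hQSD, hQIN, hLQD, hLBE. -/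
def StEXS : Prop := ∀ k, 0 ≤ k → k < 1 → ∀ μ, Bel k μ → ∃ w : ℂ ≃ₜ ℂ, w 0 = 0 ∧ w 1 = 1 ∧
  (∃ a b : ℂ → ℂ, Measurable a ∧ Measurable b ∧ QD k w a b ∧ ∀ᵐ z, b z = μ z * a z) ∧ QQ k w ∧
  ∃ (F : Ultrafilter ℕ) (W : ℕ → ℂ ≃ₜ ℂ), (∀ n, QS k (W n) ∧ W n 0 = 0 ∧ W n 1 = 1) ∧ LU F W w

/-- FA0 (about 200 lines).  Factorisation.  Proof.  Let `a, b` be as stated, `f` with weak derivatives `c, d`, `d = μ c` a.e. on `U`.  `g = f ∘ w.symm` is continuous on the open set `w '' U`.  Let `φ ∈ Tst (w '' U)`, `u = φ ∘ w`, zero outside the compact `K = w.symm '' tsupport φ ⊆ U`; by hCHR `WD U u u₁ u₂` with `u₁ = φ_ζ(w) a + φ_ζ̄(w) conj b`, `u₂ = φ_ζ(w) b + φ_ζ̄(w) conj a`.  Change of variables (QD.cv) with `G ζ = g ζ · dzb φ ζ` (zero outside `w '' U`; continuous, compact support): `∫ g dzb φ = ∫ f(z) φ_ζ̄(w z) J(z) dz` and `φ_ζ̄(w) J = a u₂ - b u₁ = -(u₁ b - u₂ a)`.  hIBC (`v = w`): `∫_U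 f (u₁ b - u₂ a) = -∫_U u (c b - d a) = 0`, because `b = μ a`, `d = μ c` a.e. on `U`.  So `∫ g dzb φ = 0` for all `φ`, and hWEY.  Hypotheses: hCHR, hIBC, hWEY. -/
def StFA0 : Prop := ∀ (k : ℝ) (w : ℂ ≃ₜ ℂ) (a b μ : ℂ → ℂ), QD k w a b → (∀ᵐ z, b z = μ z * a z) →
  ∀ (U : Set ℂ) (f : ℂ → ℂ), IsOpen U → Sol μ U f →
  DifferentiableOn ℂ (fun ζ => f (w.symm ζ)) (w '' U)

/-- AFF (about 180 lines).  Injective entire functions are affine.  Proof.  `f` is not constant, so it is open (`AnalyticOnNhd.is_constant_or_isOpen`), `f '' ball 0 1 ⊇ ball (f 0) ε`, and by injectivity `‖f z - f 0‖ ≥ ε` for `‖z‖ ≥ 1`.  `G z = 1/(f (1/z) - f 0)` is holomorphic and bounded by `1/ε` on `0 < ‖z‖ < 1`, so it extends holomorphically to `0` (`Complex.differentiableOn_update_limUnder_of_bddAbove` or `..of_isLittleO`); the extension is not identically zero near `0`, so `|G z| ≥ c|z|^m` near `0` for some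 `c > 0`, `m` (`AnalyticAt.exists_eventuallyEq_pow_smul_nonzero_iff`); hence `‖f z‖ ≤ C‖z‖^m` for large `‖z‖`, and `f` is a polynomial (all derivatives of order `> m` vanish: Cauchy estimates and Taylor series, or Liouville applied to iterated difference quotients).  An injective polynomial `P` has degree one: `P` has positive degree, `P - P(0)` has only the root `0`, so `P - P 0 = A z^d`; likewise at another point or: `A z^d = A` has `d` solutions, so `d = 1`.  Hypotheses: none. -/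
def StAFF : Prop := ∀ f : ℂ → ℂ, Differentiable ℂ f → Function.Injective f →
  ∃ α β : ℂ, α ≠ 0 ∧ ∀ z, f z = α * z + β

/-- UNX (about 80 lines).  Uniqueness.  Proof: hFA0 with `U = Sᶜ`, `f = w'`: `h = w' ∘ w.symm` is holomorphic on `(w '' S)ᶜ`, continuous on `ℂ`, so entire (`Complex.differentiableOn_compl_singleton_and_continuousAt_iff`, induction on the finite set) and injective; hAFF: affine; `h 0 = 0`, `h 1 = 1`, so `h = id`.  Hypotheses: hFA0, hAFF. -/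
def StUNX : Prop := ∀ (k : ℝ) (w w' : ℂ ≃ₜ ℂ) (a b μ : ℂ → ℂ) (S : Set ℂ), QD k w a b →
  (∀ᵐ z, b z = μ z * a z) → w 0 = 0 → w 1 = 1 → w' 0 = 0 → w' 1 = 1 → S.Finite → Sol μ Sᶜ w' → w' = w

/-- NQD (about 60 lines).  The properties of `nq μ`.  Proof: `0 ≤ k` (from `Bel k μ`); hEXS gives `w`; `IsNq μ w`, so `nq μ` is defined by choice and satisfies `IsNq μ (nq μ)`; hUNX with `S = ∅`: `nq μ = w`.  Hypotheses: hEXS, hUNX. -/
def StNQD : Prop := ∀ k < 1, ∀ μ, Bel k μ → IsNq μ (nq μ) ∧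
  (∃ a b : ℂ → ℂ, Measurable a ∧ Measurable b ∧ QD k (nq μ) a b ∧ ∀ᵐ z, b z = μ z * a z) ∧
  QQ k (nq μ) ∧
  ∃ (F : Ultrafilter ℕ) (W : ℕ → ℂ ≃ₜ ℂ), (∀ n, QS k (W n) ∧ W n 0 = 0 ∧ W n 1 = 1) ∧
    LU F W (nq μ)

end Pool.Agent.Helper68.QC
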