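import Pool.Agent.Helper68.QC.St3

/-!
# PART M: module statements, part 4 (the interface statements of Int.lean)

The statements `St..` of Int.lean are derived here; a module named `XYZ` with
`def StXYZ : Prop := StA → ... → StTARGET` is to be proved as `pXYZ : StXYZ`.
-/

open MeasureTheory Set Filter Topology Complex
open scoped ContDiff ComplexConjugate ENNReal

namespace Pool.Agent.Helper68.QC

/-- IF1 (about 80 lines).  `StEX`, `StFAC`, `StUNI` of Int.lean.  Proof: `StEX` is the first component of StNQD; `StFAC` is StFA0 for `w = nq μ` with the data `a, b` of StNQD; `StUNI` is StUNX with the same data.  Hypotheses: none. -/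
def StIF1 : Prop := StNQD → StFA0 → StUNX → (StEX ∧ StFAC ∧ StUNI)

/-- IF2 (about 60 lines).  `StCNF` of Int.lean.  Proof: `Sol μ univ (nq μ)` gives `WD univ (nq μ) a b`, `b = μ a` a.e., so `b = 0` a.e. on `U` and `∫ nq μ dzb φ = -∫ b φ = 0` for `φ ∈ Tst U`; StWEY.  Hypotheses: none. -/
def StIF2 : Prop := StEX → StWEY → StCNF

/-- IF3 (about 120 lines).  `StGRO`, `StEQC`, `StHLD` of Int.lean: bounds pass to the limit.  Proof: we may assume `0 ≤ k` (otherwise `Bel k μ` is impossible).  StNQD: `nq μ` is the limit (`LU F W (nq μ)`, in particular pointwise, also for the inverses) of normalised `QS k` maps `W n`, for which StEQS, StHLQ give the inequalities with constants independent of `n`, `μ`; take limits.  Hypotheses: none. -/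
def StIF3 : Prop := StNQD → StEQS → StHLQ → (StGRO ∧ StEQC ∧ StHLD)

/-- IF4 (about 120 lines).  `StCLO` of Int.lean.  Proof: `0 ≤ k`.  StGRO, StEQC, StLIM: `LU F (nq (μ ·)) w`, `w 0 = 0`, `w 1 = 1`.  StNQD gives data `a_i, b_i`; StLQD: `QD k w a' b'`, `a', b'` measurable.  `ν z = b' z / a' z` if `a' z ≠ 0` and `‖b' z‖ ≤ k ‖a' z‖`, else `0`: `Bel k ν` and `b' = ν a'` a.e., so `Sol ν univ w` and `w = nq ν` (StUNX with the data of `nq ν` and `S = ∅`, or StUNI).  Hypotheses: none. -/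
def StIF4 : Prop := StNQD → StGRO → StEQC → StLIM → StLQD → StUNI → StCLO

/-- IF5 (about 150 lines).  `StCON` of Int.lean.  Proof: if the conclusion fails for some `R`, `ε`, the set `E` of the indices `i` for which `sup_{closedBall 0 R} ‖nq (μ i) - nq ν‖ ≥ ε` (or the same for the inverses) is frequent for `F`; take an ultrafilter `G ≤ F ⊓ 𝓟 E`.  StGRO, StEQC, StLIM along `G`: limit `w`; StLQD: data `a', b'`, EB, weak convergence; StLBE: `b' = ν a'` a.e.; so `Sol ν univ w`, `w = nq ν` (StUNI), contradicting `E ∈ G`.  Hypotheses: none. -/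
def StIF5 : Prop := StNQD → StGRO → StEQC → StLIM → StLQD → StLBE → StUNI → StCON

/-- HOA (about 150 lines).  Holomorphic dependence, affine families.  Proof: we may assume `V` nonempty, `0 ≤ k`.  Put `μ_t = μ₀ + t μ₁`, `μ^n_t = sm n μ₀ + t sm n μ₁ = sm n μ_t` (StSMO), smooth, periodic of period `2(n+1)`, `‖μ^n_t‖ ≤ k` for `t ∈ V`.  StHPS: `W^n_t` with QS k, normalised, coefficient `μ^n_t`, `t ↦ W^n_t z` holomorphic on `V`; it is a solution in the sense `Sol (μ^n_t) univ` (`wd_smooth`), so `W^n_t = nq (μ^n_t)` (StUNI).  StGRO: `‖W^n_t z‖ ≤ M`; StSMO and StCON: `W^n_t z → nq μ_t z` for `t ∈ V`.  StPBL.  Hypotheses: none. -/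
def StHOA : Prop := StSMO → StHPS → StUNI → StGRO → StCON → StPBL →
  ∀ (k C : ℝ) (μ₀ μ₁ : ℂ → ℂ) (V : Set ℂ), k < 1 → Measurable μ₀ → Measurable μ₁ →
    (∀ z, ‖μ₀ z‖ ≤ C) → (∀ z, ‖μ₁ z‖ ≤ C) → IsOpen V → (∀ t ∈ V, ∀ z, ‖μ₀ z + t * μ₁ z‖ ≤ k) →
    ∀ z, DifferentiableOn ℂ (fun t => nq (fun y => μ₀ y + t * μ₁ y) z) V

/-- holomorphic dependence for affine families (conclusion of HOA) -/
def HolAff : Prop := ∀ (k C : ℝ) (μ₀ μ₁ : ℂ → ℂ) (V : Set ℂ), k < 1 → Measurable μ₀ →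
  Measurable μ₁ → (∀ z, ‖μ₀ z‖ ≤ C) → (∀ z, ‖μ₁ z‖ ≤ C) → IsOpen V →
  (∀ t ∈ V, ∀ z, ‖μ₀ z + t * μ₁ z‖ ≤ k) →
  ∀ z, DifferentiableOn ℂ (fun t => nq (fun y => μ₀ y + t * μ₁ y) z) V

/-- IF6 (about 130 lines).  `StLIP` and `StNID` of Int.lean.  Proof of LIP: `0 ≤ k`, `k' = (1+k)/2 < 1`, `M` = constant of StGRO for `k'`, `R`.  If `ε = 0` then `μ = ν`.  Let `r = (1-k)/(2ε)`.  For `|λ| < r` the coefficient `μ + λ(ν - μ)` is bounded by `k'`, so `g(λ) = nq (μ + λ(ν-μ)) z` is holomorphic on `ball 0 r` (HolAff) and bounded by `M`; if `r > 1`, Schwarz lemma (`Complex.dist_le_div_mul_dist_of_mapsTo_ball`, or `norm_deriv_le` + segment) for `g - g(0)`, bounded by `2M` (use radius slightly larger bound): `‖g(1) - g(0)‖ ≤ 2(M+1)/r = 4(M+1)ε/(1-k)`; if `r ≤ 1`, `‖g(1) - g(0)‖ ≤ 2M ≤ 4Mε/(1-k)`.  NID: `nq 0 = id` (StUNI: `Sol 0 univ id`), then LIP with `k = 1/2`, `ν = 0`, `ε = k`.  Hypotheses: none. -/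
def StIF6 : Prop := HolAff → StGRO → StUNI → (StLIP ∧ StNID)

/-- IF7 (about 180 lines).  `StHOL` of Int.lean.  Proof: fix `s ∈ V`, `closedBall s r ⊆ V`, `0 < r`; `0 ≤ k`.  For every `y`, `t ↦ μ t y` is holomorphic on `V` and bounded by `k`; `μ' y = deriv (t ↦ μ t y) s` satisfies `‖μ' y‖ ≤ k/r` (Cauchy) and is measurable in `y` (limit of difference quotients `(μ (s + r/(n+1)) y - μ s y) (n+1)/r`).  Taylor: `‖μ t y - μ s y - (t - s) μ' y‖ ≤ C₁ ‖t - s‖²` for `‖t - s‖ ≤ r/2`, `C₁` depending on `k, r` only (e.g. second derivative bounded by `8k/r²` on the half disc, or apply the Schwarz lemma to `t ↦ (μ t y - μ s y - (t-s)μ' y)/(t-s)` ).  `g t = nq (μ s + (t-s) μ') z` is holomorphic near `s` (HolAff, with `k' = (1+k)/2`, `‖t - s‖ < r(1-k)/(2(k+1))`), `‖nq (μ t) z - g t‖ ≤ C C₁ ‖t - s‖²` (StLIP with `k'`; outside `V`... only `t` near `s` matter), and `g s = nq (μ s) z`; so `t ↦ nq (μ t) z` is complex differentiable at `s` with the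 same derivative as `g`.  Hypotheses: none. -/
def StIF7 : Prop := HolAff → StLIP → StHOL

/-- CVX (about 180 lines).  Change of variables as an equality of measures.  Proof: `J = jc a b ≥ 0` a.e. (`‖b‖ ≤ k‖a‖`, `k < 1`), locally integrable.  `ν = map w (volume.withDensity (ofReal J))` is finite on compact sets (`ν K = ∫_{w⁻¹K} J`).  QD.cv says `∫ G dν = ∫ G dvol` for continuous compactly supported `G`; so `ν = vol` (uniqueness in the Riesz representation theorem: look for `MeasureTheory.Measure.ext_of_integral_eq_on_compactlySupported` or similar; otherwise: for compact `K`, `1_K` is the decreasing limit of `G_n ζ = max 0 (1 - n · infDist ζ K)`, so `ν K = vol K`, and both measures are inner regular / agree on the π-system of compact sets, use `ext_of_generateFrom` or regularity).  Hypotheses: none. -/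
def StCVX : Prop := ∀ (k : ℝ) (w : ℂ ≃ₜ ℂ) (a b : ℂ → ℂ), 0 ≤ k → k < 1 → QD k w a b →
  Measure.map w (volume.withDensity (fun z => ENNReal.ofReal (jc a b z))) = volume

/-- NUX (about 90 lines).  Null sets; the Jacobian is positive.  Proof: for measurable null `E'`, `vol (w '' E') = ∫ 1_{w '' E'} = ∫_{E'} ofReal J = 0` by StCVX (`w '' E' = w.symm ⁻¹' E'` is measurable; `lintegral_map`, `withDensity_apply`); in general enclose `E` in a measurable null set.  The same for `w.symm` (second component of QQ).  `Z = {J ≤ 0}` (null measurable): `vol (w '' Z') = ∫_{Z'} ofReal J = 0` for a measurable version, so `vol Z = 0`.  Hypotheses: hCVX. -/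
def StNUX : Prop := ∀ (k : ℝ) (w : ℂ ≃ₜ ℂ), 0 ≤ k → k < 1 → QQ k w →
  (∀ E : Set ℂ, volume (w '' E) = 0 ↔ volume E = 0) ∧ ∀ a b, QD k w a b → ∀ᵐ z, 0 < jc a b z

/-- IF8 (about 120 lines).  `StCVM` and `StNUL` of Int.lean.  Proof: `0 ≤ k`.  StNQD: data `a, b` (measurable) with `QD k (nq μ) a b`, `b = μ a` a.e., and `QQ`.  StNUX: `J > 0` a.e., so `a ≠ 0` a.e.  Put `a' z = a z` if `a z ≠ 0` and `b z = μ z * a z`, else `1`, and `b' = μ a'`: `a' = a`, `b' = b` a.e., so `WD univ (nq μ) a' b'` (the integrals and MemLp only depend on the a.e. class), `a'` measurable.  For measurable `G : ℂ → ℝ≥0∞`: `∫⁻ G = ∫⁻ G d(map ..) = ∫⁻ G(w) ofReal J` by StCVX (`lintegral_map`, `lintegral_withDensity_eq_lintegral_mul₀`).  Hypotheses: none. -/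
def StIF8 : Prop := StNQD → StCVX → StNUX → (StCVM ∧ StNUL)

/-- PSH (about 250 lines).  Push-forward of weak derivatives by a quasiconformal map.  Proof.  `J = jc a b > 0` a.e.; `h₁ = (c conj a - d conj b)/J`, `h₂ = (a d - b c)/J`, take measurable representatives, `C = h₁ ∘ w.symm`, `D = h₂ ∘ w.symm`.  Null sets are preserved by `w` and `w.symm` (StNUX), so `C(w z) J z = c conj a - d conj b` a.e. etc.  `L²_loc`: `‖h_j‖² J ≤ (‖c‖+‖d‖)²‖a‖²/J ≤ (‖c‖+‖d‖)²/(1-k²)` a.e. (`‖b‖ ≤ ‖a‖`), so for compact `K`: `∫_K ‖C‖² = ∫_{w⁻¹K} ‖h₁‖² J < ∞` (StCVX).  Derivative: for `φ ∈ Tst univ`, `u = φ ∘ w` has `u_z = φ_ζ(w) a + φ_ζ̄(w) conj b`, `u_z̄ = φ_ζ(w) b + φ_ζ̄(w) conj a` (StCHR), compact support.  `∫ f(w.symm ζ) φ_ζ dζ = ∫ f φ_ζ(w) J dz` (QD.cv), `φ_ζ(w) J = conj a u_z - conj b u_z̄ = {u, conj w}` (weak derivatives of `conj w`: `conj b`, `conj a`), so by StIBC (`U = univ`, `v = conj w`) it is `-∫ u {f, conj w} = -∫ φ(w) (c conj a - d conj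 b) = -∫ φ(w) h₁ J = -∫ φ C` (StCVX for the integrable function `φ C`: `integral_map`, `integral_withDensity_eq_integral_smul`).  `φ_ζ̄(w) J = a u_z̄ - b u_z = -{u, w}` and StIBC with `v = w`: `∫ f(w.symm) φ_ζ̄ = -∫ f {u,w} = ∫ u (c b - d a) = -∫ φ(w) h₂ J = -∫ φ D`.  Hypotheses: hCHR, hIBC, hCVX, hNUX. -/
def StPSH : Prop := ∀ (k : ℝ) (w : ℂ ≃ₜ ℂ) (a b f c d : ℂ → ℂ), 0 ≤ k → k < 1 → QD k w a b → QQ k w →
  WD univ f c d → ∃ C D : ℂ → ℂ, Measurable C ∧ Measurable D ∧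
    WD univ (fun ζ => f (w.symm ζ)) C D ∧
    (∀ᵐ z, C (w z) * (jc a b z : ℂ) = c z * conj (a z) - d z * conj (b z)) ∧
    ∀ᵐ z, D (w z) * (jc a b z : ℂ) = a z * d z - b z * c z

/-- IF9 (about 180 lines).  `StCMP` and `StINV` of Int.lean.  Proof of CMP: `0 ≤ k`.  `w = nq κ` with data `a`, `b = κ a` (everywhere, `a ≠ 0`, StCVM; or StNQD), `f = nq μ`, `c`, `d = μ c`.  StPSH: `F = f ∘ w.symm` has weak derivatives `C, D`, a.e. `C(w)J = c conj a (1 - μ conj κ)`, `D(w)J = a c (μ - κ)`; so a.e. `‖D(w)‖ ‖1 - conj κ μ‖ = ‖C(w)‖ ‖μ - κ‖` and `‖D(w)‖ ≤ δ‖C(w)‖` a.e. `z`, hence `‖D‖ ≤ δ‖C‖` a.e. (null sets, StNUL), `C(w z) ≠ 0` a.e.  `δ ≥ 0` (the hypothesis at one point: `1 - conj κ μ ≠ 0`).  `ν = D/C` where `C ≠ 0` and `‖D‖ ≤ δ‖C‖`, else `0`: `Bel δ ν`, `Sol ν univ F`, `F = (w.symm).trans f` is a homeomorphism fixing `0, 1`, so `F = nq ν` (StUNI).  INV: QQ gives `QD k (nq μ).symm a' b'`; `ν = b'/a'` as in IF4 with measurable representatives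 (`a'`, `b'` are a.e. strongly measurable), `Sol ν univ (nq μ).symm`; StUNI.  Hypotheses: none. -/
def StIF9 : Prop := StNQD → StCVM → StNUL → StPSH → StUNI → (StCMP ∧ StINV)

/-- EQX (about 250 lines).  `StEQV` of Int.lean.  Proof.  `w = nq μ`, `A = [[p,q],[r,s]]`, `ps - qr = 1`.  CASE `r = 0`: `s ≠ 0`, `φ z = mob A z = (pz+q)/s` is an affine bijection; `f = w ∘ φ`, `Sol μ univ f` (StPRE with `U = V = univ`: coefficient `μ(φ z) conj(φ')/φ'` = `μ` a.e. by InvB, `φ' = 1/(den A z)²`; change the coefficient on a null set); StFAC: `f ∘ w.symm` is entire, injective; StAFF: `= αζ + β`.  With `e² = α` (`e ≠ 0`): `B = [[e, β/e],[0, 1/e]]`.  CASE `r ≠ 0`: pole `e₀ = -s/r`; `φ = mob A` is injective holomorphic on `V = {e₀}ᶜ`, `φ' = 1/(den A z)² ≠ 0`, never equal to `p/r`; `f = w ∘ φ`, `Sol μ V f`; StFAC: `h ζ = w (φ (w.symm ζ))` is holomorphic and injective on `{c}ᶜ = w '' V`, `c = w e₀`, `h ≠ d = w (p/r)`.  `E ζ = 1/(h ζ - d)` for `ζ ≠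 c`, `E c = 0`: injective, holomorphic on `{c}ᶜ`, continuous at `c` (as `ζ → c`, `w.symm ζ → e₀`, `φ → ∞`, and `w` is proper: `w` tends to infinity along `cocompact`), so entire (`Complex.differentiableOn_compl_singleton_and_continuousAt_iff`); StAFF: `E ζ = α(ζ - c)`.  So `h ζ = d + 1/(α(ζ - c))`.  With `e² = -α`: `B = [[dα/e, (1 - dαc)/e],[α/e, -αc/e]]`, determinant `-α/e² = 1`; check the four conditions of Intw.  Hypotheses: none. -/
def StEQX : Prop := StEX → StFAC → StPRE → StAFF → StEQV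

/-- ITW (about 150 lines).  Uniqueness up to sign and multiplicativity of the intertwined matrix.  Proof.  (i) `mob B ζ = mob B' ζ` for all `ζ` with `den B ζ ≠ 0` (`ζ = w z`, `den A z ≠ 0`), and `den B ζ = 0 ↔ den B' ζ = 0`: clearing denominators, `(B₀₀ζ+B₀₁)(B'₁₀ζ+B'₁₁) = (B'₀₀ζ+B'₀₁)(B₁₀ζ+B₁₁)` for all but one `ζ`, so coefficients agree; with both determinants `1` this forces `B' = λB`, `λ² = 1`.  (ii) for `den (A*A') z ≠ 0`: if `den A' z ≠ 0`, `mob (A*A') z = mob A (mob A' z)`, `den (A*A') z = den A (mob A' z) · den A' z`; apply the two intertwining relations; if `den A' z = 0` (so `z = -A'₁₁/A'₁₀`, `A'₁₀ ≠ 0`), `mob (A*A') z = A₀₀/A₁₀` (value of `A` at infinity), `A₁₀ ≠ 0`, use the fourth condition; the conditions at infinity: `(A*A')(∞) = A(A'(∞))`.  (iii) Intw for `1`, `-B`.  Hypotheses: none. -/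
def StITW : Prop :=
  (∀ (A B B' : SL) (w : ℂ ≃ₜ ℂ), Intw A B w → Intw A B' w → B' = B ∨ B' = -B) ∧
  (∀ (A A' B B' : SL) (w : ℂ ≃ₜ ℂ), Intw A B w → Intw A' B' w → Intw (A * A') (B * B') w) ∧
  (∀ (A B : SL) (w : ℂ ≃ₜ ℂ), Intw A B w → Intw A (-B) w)

/-- SQT (about 60 lines).  Holomorphic square roots on discs.  Proof: `g'/g` is holomorphic on the ball, so it has a primitive `P` there (Mathlib: `DifferentiableOn.isExactOn_ball` or `Complex.IsExactOn`, or power series); `g exp(-P)` is constant; `s = c₀ exp(P/2)` with `c₀² = g(c) exp(-P(c))`, and the sign is adjusted to have `s c = e`.  Hypotheses: none. -/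
def StSQT : Prop := ∀ (c : ℂ) (r : ℝ) (g : ℂ → ℂ) (e : ℂ), 0 < r →
  DifferentiableOn ℂ g (Metric.ball c r) → (∀ t ∈ Metric.ball c r, g t ≠ 0) → e ^ 2 = g c →
  ∃ s : ℂ → ℂ, DifferentiableOn ℂ s (Metric.ball c r) ∧ (∀ t ∈ Metric.ball c r, s t ^ 2 = g t) ∧ s c = e

/-- RP1 (about 250 lines).  Holomorphic lift for one Möbius transformation.  Proof.  Write `w_t = nq (μ t)`, `A = [[p,q],[r',s]]`.  StEQV gives for every `t` in the ball some `B_t` with `Intw A B_t w_t`.  CASE `r' = 0`: `B_t` has lower left entry `0`, `mob B_t` is affine `αζ + β`, `β = mob B_t 0 = w_t (mob A 0)`, `α + β = w_t (mob A 1)`: `α_t, β_t` are holomorphic in `t` (StHOL), `α_t ≠ 0`; StSQT: `e_t² = α_t` holomorphic, with `e_c` = the upper left entry of `B₀` (for which `B₀ = [[e, β/e],[0,1/e]]`, `e² = α_c`); `B t = [[e_t, β_t/e_t],[0, 1/e_t]]`.  CASE `r' ≠ 0`: `e₀ = -s/r'`, `c_t = w_t e₀`, `d_t = w_t (p/r')` and for a fixed `z₀ ≠ e₀`, `α_t = 1/((w_t (mob A z₀)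 - d_t)(w_t z₀ - c_t))`, holomorphic, nonzero (injectivity); `B_t` has pole `c_t` and value `d_t` at infinity, so `mob B_t ζ = d_t + 1/(α_t(ζ - c_t))` (a matrix of determinant one with pole `c`, value `d` at infinity and lower left entry `γ` has `mob ζ = d - 1/(γ²(ζ - c))`; so `γ² = -α`).  StSQT: `γ_t² = -α_t`, `γ_c` = lower left entry of `B₀`; `B t = [[d_t γ_t, -(1 + c_t d_t γ_t²)/γ_t],[γ_t, -c_t γ_t]]`.  In both cases `B t = ± B_t`, so `Intw A (B t) w_t` (StITW), entries holomorphic, `B c = B₀`.  Hypotheses: none. -/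
def StRP1 : Prop := StEQV → StHOL → StITW → StSQT → StEX →
  ∀ k < 1, ∀ (c : ℂ) (r : ℝ) (μ : ℂ → ℂ → ℂ), (∀ t ∈ Metric.ball c r, Bel k (μ t)) →
  (∀ z, DifferentiableOn ℂ (fun t => μ t z) (Metric.ball c r)) → ∀ A B₀ : SL,
  (∀ t ∈ Metric.ball c r, InvB A (μ t)) → Intw A B₀ (nq (μ c)) → 0 < r →
  ∃ B : ℂ → SL, B c = B₀ ∧ (∀ i j, DifferentiableOn ℂ (fun t => B t i j) (Metric.ball c r)) ∧
    ∀ t ∈ Metric.ball c r, Intw A (B t) (nq (μ t))

/-- conclusion of RP1 -/
def Lift1 : Prop := ∀ k < 1, ∀ (c : ℂ) (r : ℝ) (μ : ℂ → ℂ → ℂ), (∀ t ∈ Metric.ball c r, Bel k (μ t)) →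
  (∀ z, DifferentiableOn ℂ (fun t => μ t z) (Metric.ball c r)) → ∀ A B₀ : SL,
  (∀ t ∈ Metric.ball c r, InvB A (μ t)) → Intw A B₀ (nq (μ c)) → 0 < r →
  ∃ B : ℂ → SL, B c = B₀ ∧ (∀ i j, DifferentiableOn ℂ (fun t => B t i j) (Metric.ball c r)) ∧
    ∀ t ∈ Metric.ball c r, Intw A (B t) (nq (μ t))

/-- RPX (about 150 lines).  `StREP` of Int.lean.  Proof: Lift1 for every `γ` (with `A = ρ₀ γ`, `B₀ = σ γ`) gives `B_γ(t)`.  For `γ, γ'` both `B_{γγ'}(t)` and `B_γ(t) B_γ'(t)` intertwine `ρ₀(γγ')`, so they are equal up to sign (StITW); the sets `{t : X t = Y t}` and `{t : X t = -Y t}` are closed in the (connected) ball, disjoint (a matrix of determinant one is not its own negative), cover it, and the first contains `c` (`σ` is a homomorphism); so `X = Y` on the ball.  For `t` in the ball `ρ t` is the homomorphism `γ ↦ B_γ(t)` (`MonoidHom.mk'`), for other `t` it is `σ`.  Hypotheses: none. -/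
def StRPX : Prop := Lift1 → StITW → StREP

/-- SYX (about 150 lines).  `StSYR` of Int.lean.  Proof: `f z = conj (w (conj z))`, `w = nq μ` with weak derivatives `a, b`, `b = μ a` a.e.  `f` is a homeomorphism fixing `0, 1` with weak derivatives `conj (a (conj z))`, `conj (b (conj z))`: for a test function `φ` put `φ* z = conj (φ (conj z))`, then `dz φ* z = conj (dz φ (conj z))`, and `∫ f φ_z = conj ∫ w φ*_z = -conj ∫ a φ* = -∫ conj(a(conj z)) φ z` (`z ↦ conj z` preserves Lebesgue measure).  The hypothesis gives `Sol μ univ f`, and StUNI.  Hypotheses: none. -/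
def StSYX : Prop := StEX → StUNI → StSYR

/-- SYY (about 220 lines).  `StSYC` of Int.lean.  Proof: `w = nq μ`, `g z = conj (w (conj z))` solves the equation with `μ^ z = conj (μ (conj z))` on `ℂ` (as in SYX).  `m z = 1/z` on `V = {0}ᶜ`, injective, `m' = -1/z²`, `conj(m')/m' = z²/conj(z)²`: StPRE: `g ∘ m` solves on `V` the equation with coefficient `conj (μ (1/conj z)) z²/conj(z)² = μ z` a.e. (conjugate the hypothesis).  `g(1/z) ≠ 0` on `V`, so by StPOS with `1/x` on `W = {0}ᶜ`, `f z = 1/g(1/z) = 1/conj(w(1/conj z))` solves `Sol μ {0}ᶜ`.  `f 0 = 0` by Lean's conventions, `f` is a homeomorphism of `ℂ` (its own formula with `w.symm` in place of `w` gives the inverse; continuity at `0`: `w` tends to infinity along `cocompact`), `f 0 = 0`, `f 1 = 1`.  StUNI with `S = {0}`: `f = w`, i.e. `w (1/conj z) = 1/conj(w z)`.  Hypotheses: none. -/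
def StSYY : Prop := StEX → StUNI → StPRE → StPOS → StSYC

/-- ELL (about 180 lines).  Elliptic regularity: a continuous function with `f_z̄` locally square integrable has `f_z` locally square integrable.  Proof.  (i) for a test function `φ`, `∫ ‖dz φ‖² = ∫ ‖dzb φ‖²` (`integral_bracket` with `g = conj φ`: `{φ, conj φ} = φ_z conj(φ_z) - φ_z̄ conj(φ_z̄)`).  (ii) let `χ ∈ Tst U`; `F = χ f` is continuous with compact support, with weak `F_z̄ = B = χ b + χ_z̄ f ∈ L²(ℂ)`; `F_n = mol n F` are test functions, `dzb F_n = mol n B → B` in `L²` (hMO1, hMO2), so by (i) `dz F_n` is Cauchy in `L²`; its limit `A_χ` is a weak `z`-derivative of `F`.  (iii) exhaust `U` by compact sets `K_n ⊆ interior K_(n+1)`, `χ_n = 1` near `K_n`; put `a = A_{χ_n}` on `K_n \ K_(n-1)`; by uniqueness (as in hUNW, test functions supported where `χ_n = χ_m = 1`) `a = A_{χ_n}` a.e. on `K_n`; a test function in `U` is supported in some `K_n`.  Hypotheses: hMO1, hMO2,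 hUNW. -/
def StELL : Prop := ∀ (U : Set ℂ) (f b : ℂ → ℂ), IsOpen U → ContinuousOn f U → L2 U b →
  (∀ φ, Tst U φ → ∫ z, f z * dzb φ z = - ∫ z, b z * φ z) → ∃ a, WD U f a b

end Pool.Agent.Helper68.QC
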