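import Pool.Agent.Helper68.QC.St5

/-!
# PART M: module statements, part 6 (Stokes on the torus of a loxodromic element; first variation)

`ann l = {1 ≤ |ξ| < e^(Re l)}` is a fundamental domain of `ξ ↦ e^l ξ` on `ℂ \ {0}`.
-/

open MeasureTheory Set Filter Topology Complex
open scoped ContDiff ComplexConjugate ENNReal

namespace Pool.Agent.Helper68.QC

/-- fundamental annulus of `ξ ↦ e^l ξ` -/
def ann (l : ℂ) : Set ℂ := {ξ : ℂ | 1 ≤ ‖ξ‖ ∧ ‖ξ‖ < Real.exp l.re}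

/-- `μ` is invariant under `ξ ↦ e^l ξ` -/
def InvL (l : ℂ) (μ : ℂ → ℂ) : Prop :=
  ∀ᵐ ξ : ℂ, μ (Complex.exp l * ξ) * conj (Complex.exp l) = μ ξ * Complex.exp l

/-- LOC (about 120 lines).  Weak derivatives are local.  Proof: `L²`: a compact `K ⊆ U` is covered by finitely many open balls whose closures are compact subsets of such `V`.  Test function `φ`: smooth partition of unity on `tsupport φ` subordinate to finitely many of the `V` (`SmoothPartitionOfUnity.exists_isSubordinate`, or bump functions `χ_i` and `φ_i = φ χ_i / ∑ χ_j`), `φ = ∑ φ_i`, `φ_i ∈ Tst V_i`; add up.  Hypotheses: none. -/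
def StLOC : Prop := ∀ (U : Set ℂ) (f a b : ℂ → ℂ), IsOpen U →
  (∀ z ∈ U, ∃ V, IsOpen V ∧ z ∈ V ∧ V ⊆ U ∧ WD V f a b) → WD U f a b

/-- RCH (about 300 lines).  Radial cutoff on `ℂ \ {0}`.  Proof.  `r = Re l`, `ρ : ℝ → ℝ` smooth, `≥ 0`, support in `[-1,1]`, integral one; `g s = ∫_{s-r}^{s} ρ`, smooth, `g' s = ρ s - ρ (s-r)`, `0 ≤ g ≤ 1`, support in `[-1, r+1]`, `∑_n g (s + n r) = ∫ ρ = 1`.  `χ ξ = g (log‖ξ‖)`, `χ 0 = 0`.  `dz χ = g'(log‖ξ‖)/(2ξ)`, `dzb χ = g'(log‖ξ‖)/(2 conj ξ)` (`log‖ξ‖ = (1/2) log(ξ conj ξ)`).  (1), (2): both integrals are `∫ Ψ g'(log‖ξ‖)/(2‖ξ‖²) = (1/2) ∫ M(s) g'(s) ds`, `M(s) = ∫_0^{2π} Ψ(e^{s+iθ}) dθ` (polar coordinates and `r = e^s`, or `Complex.polarCoord`), and `M(s + r) = M(s) + 2πκ` (rotate by `Im l`), so it is `(1/2) ∫ (M(s) - M(s+r)) ρ(s) ds = -πκ`.  (3): `ℂ \ {0}` is the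 disjoint union of the sets `e^{nl} ann l`; `∫_{e^{nl} ann} χ f = ∫_{ann} χ(e^{nl}ξ) f(ξ) dξ` (change of variables, invariance of `f`), only finitely many `n` contribute, and `∑_n χ(e^{nl}ξ) = 1`.  (4) the sum.  Hypotheses: none. -/
def StRCH : Prop := ∀ l : ℂ, 0 < l.re → ∃ χ : ℂ → ℝ, Tst {0}ᶜ (fun z => (χ z : ℂ)) ∧
  (∀ z, 0 ≤ χ z ∧ χ z ≤ 1) ∧
  (∀ (κ : ℂ) (Ψ : ℂ → ℂ), ContinuousOn Ψ {0}ᶜ → (∀ ξ, ξ ≠ 0 → Ψ (Complex.exp l * ξ) = Ψ ξ + κ) →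
    ∫ ξ, Ψ ξ * (dzb (fun z => (χ z : ℂ)) ξ / ξ) = - (Real.pi * κ) ∧
    ∫ ξ, Ψ ξ * (dz (fun z => (χ z : ℂ)) ξ / conj ξ) = - (Real.pi * κ)) ∧
  (∀ f : ℂ → ℂ, IntegrableOn f (ann l) →
    (∀ᵐ ξ : ℂ, f (Complex.exp l * ξ) * (‖Complex.exp l‖ ^ 2 : ℝ) = f ξ) →
    Integrable (fun ξ => (χ ξ : ℂ) * f ξ) ∧ ∫ ξ, (χ ξ : ℂ) * f ξ = ∫ ξ in ann l, f ξ) ∧
  (∀ ξ, ξ ≠ 0 → HasSum (fun n : ℤ => χ (Complex.exp l ^ n * ξ)) 1)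

/-- UNG (about 120 lines).  Unfolding.  Proof: `∫ G/‖η‖² = ∑_n ∫_{L^n {1≤‖η‖<‖L‖}} = ∑_n ∫_{1≤‖η‖<‖L‖} G(L^n η)/‖η‖² dη` (disjoint union, change of variables by the linear map, `dη/‖η‖²` is invariant), Tonelli: `= ∫_{1≤‖η‖<‖L‖} dη/‖η‖² = 2π log‖L‖` (polar coordinates).  Hypotheses: none. -/
def StUNG : Prop := ∀ (L : ℂ) (G : ℂ → ℝ), 1 < ‖L‖ → Continuous G → HasCompactSupport G →
  tsupport G ⊆ {0}ᶜ → (∀ z, 0 ≤ G z) → (∀ η, η ≠ 0 → HasSum (fun n : ℤ => G (L ^ n * η)) 1) →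
  ∫ η, G η / ‖η‖ ^ 2 = 2 * Real.pi * Real.log ‖L‖

/-- LGC (about 200 lines).  A continuous logarithm of `nq μ ξ / ξ`.  Proof.  If `k ≤ 0` then `μ = 0`, `nq μ = id`.  Otherwise let `δ > 0` with `k(1 + 2δ) < 1`, `w_t = nq (t μ)` for `‖t‖ < 1 + 2δ`: `t ↦ w_t ξ` is holomorphic there (StHOL), equal to `ξ` at `t = 0` (`nq 0 = id` by StUNI), nonzero for `ξ ≠ 0`.  `Ψ ξ = ∫_0^1 (∂_t w_t ξ)/(w_t ξ) dt` (real `t`); `d/dt (w_t ξ exp(-∫_0^t)) = 0` gives `w_1 ξ = ξ exp(Ψ ξ)`; `Ψ 1 = 0` because `w_t 1 = 1`.  Continuity: Cauchy's estimate on the circle `‖s - t‖ = δ`: `‖∂_t w_t ξ - ∂_t w_t ξ'‖ ≤ δ⁻¹ sup_s ‖w_s ξ - w_s ξ'‖`, small uniformly in `t` (StEQC); `‖∂_t w_t ξ‖ ≤ M/δ` (StGRO); `‖w_t ξ‖ ≥ c > 0` for `ξ` in a compact subset of `ℂ \ {0}` and all `t ∈ [0,1]` (StEQC for the inverses: if `‖w_t ξ‖ ≤ δ'` then `‖ξ‖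 = ‖w_t⁻¹(w_t ξ) - w_t⁻¹ 0‖ ≤ ε`).  Hypotheses: none. -/
def StLGC : Prop := StEX → StUNI → StHOL → StEQC → StGRO → ∀ k < 1, ∀ μ, Bel k μ →
  ∃ Ψ : ℂ → ℂ, ContinuousOn Ψ {0}ᶜ ∧ (∀ ξ, ξ ≠ 0 → nq μ ξ = ξ * Complex.exp (Ψ ξ)) ∧ Ψ 1 = 0

/-- conclusion of LGC -/
def LogC : Prop := ∀ k < 1, ∀ μ, Bel k μ →
  ∃ Ψ : ℂ → ℂ, ContinuousOn Ψ {0}ᶜ ∧ (∀ ξ, ξ ≠ 0 → nq μ ξ = ξ * Complex.exp (Ψ ξ)) ∧ Ψ 1 = 0

/-- EQM (about 120 lines).  Equivariance for dilations.  Proof: `w = nq μ`, `L = w (e^l) ≠ 0` (`w 0 = 0`).  `f ξ = w(e^l ξ)/L` is a homeomorphism fixing `0` and `1`, `Sol μ univ f` (StPRE with `φ ξ = e^l ξ`, coefficient changed on a null set by InvL; StPOS with `x ↦ x/L`), so `f = w` (StUNI).  `‖L‖ > 1`: `w (e^{nl}) = L^n` by induction, `e^{nl} → ∞`, `w` is a homeomorphism so `w (e^{nl}) → ∞` (cocompact).  Hypotheses: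 none. -/
def StEQM : Prop := StEX → StUNI → StPRE → StPOS → ∀ k < 1, ∀ μ, Bel k μ → ∀ l : ℂ, 0 < l.re →
  InvL l μ → 1 < ‖nq μ (Complex.exp l)‖ ∧ ∀ ξ, nq μ (Complex.exp l * ξ) = nq μ (Complex.exp l) * nq μ ξ

/-- conclusion of EQM -/
def EqvL : Prop := ∀ k < 1, ∀ μ, Bel k μ → ∀ l : ℂ, 0 < l.re → InvL l μ →
  1 < ‖nq μ (Complex.exp l)‖ ∧ ∀ ξ, nq μ (Complex.exp l * ξ) = nq μ (Complex.exp l) * nq μ ξ

/-- LWT (about 150 lines).  Weak derivatives of the logarithm.  Proof: by hLOC it is enough to work near `ξ₀ ≠ 0`: on a small ball `V` around `ξ₀`, `‖w ξ/w ξ₀ - 1‖ < 1/2`, `‖ξ/ξ₀ - 1‖ < 1/2` and `‖Ψ ξ - Ψ ξ₀‖ < 1`, and then `Ψ ξ = Ψ ξ₀ + log(w ξ/w ξ₀) - log(ξ/ξ₀)` (principal logarithm: both sides have the same exponential and differ by less than `2π` in modulus).  hCHR with `F x = log(x/w ξ₀)` (holomorphic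 near `w '' V`, `F' = 1/x`) gives the weak derivatives `a/w`, `b/w`; `log(ξ/ξ₀)` is smooth with derivatives `1/ξ`, `0`; weak derivatives are additive.  Hypotheses: hLOC, hCHR. -/
def StLWT : Prop := ∀ w Ψ a b : ℂ → ℂ, WD univ w a b → ContinuousOn Ψ {0}ᶜ →
  (∀ ξ, ξ ≠ 0 → w ξ = ξ * Complex.exp (Ψ ξ)) →
  WD {0}ᶜ Ψ (fun ξ => a ξ / w ξ - 1 / ξ) (fun ξ => b ξ / w ξ)

/-- STK (about 300 lines).  Stokes on the torus.  Proof.  `w = nq μ`, `a, b` from StCVM, `Ψ` from LogC, `L = w (e^l)`, EqvL.  `κ = Ψ(e^l)`: `Ψ(e^l ξ) - Ψ ξ` is continuous on the connected set `ℂ \ {0}` with constant exponential `L e^{-l}`, so constant, equal to its value `κ` at `ξ = 1`.  `l' = l + κ`: `e^{l'} = L`, `Re l' = log‖L‖ > 0`.  Equivariance of the derivatives a.e. (hUNW for `ξ ↦ w(e^l ξ) = L w ξ`, hPRW): `a(e^l ξ) e^l = L a ξ`, `b(e^l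 ξ) conj(e^l) = L b ξ`; so `f = b/(w ξ)`, `h = a/(w conj ξ)` and `‖a‖²/‖w‖²`, `1/‖ξ‖²` all satisfy `f(e^l ξ)‖e^l‖² = f ξ`; they are integrable on `ann l` (`a, b ∈ L²`, `‖w‖ ≥ c` there).  `χ` from hRCH; `χ/ξ` (zero at `0`) is in `Tst {0}ᶜ` with `dzb (χ/ξ) = (dzb χ)/ξ`, so by hLWT `∫ χ b/(w ξ) = -∫ Ψ (dzb χ)/ξ = πκ`, and hRCH (3): `∫_{ann} b/(w ξ) = πκ`.  Similarly with `χ/conj ξ`: `∫ χ (a/w - 1/ξ)/conj ξ = πκ`, and `∫_{ann} 1/‖ξ‖² = 2π Re l`.  Jacobian: change of variables (StNQD/QD.cv or StCVM) with `G η = χ(w⁻¹ η)/‖η‖²`: `∫ χ (‖a‖² - ‖b‖²)/‖w‖² = ∫ χ(w⁻¹ η)/‖η‖² dη = 2π log‖L‖` by hUNG (`w⁻¹(L^n η) = e^{nl} w⁻¹ η`, last property of hRCH), and `‖a‖² - ‖b‖² ≥ (1-k²)‖a‖²`.  Hypotheses: hRCH, hUNG, hLWT, hUNW, hPRW. -/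
def StSTK : Prop := StEX → StCVM → LogC → EqvL → ∀ k, 0 ≤ k → k < 1 → ∀ μ, Bel k μ → ∀ l : ℂ,
  0 < l.re → InvL l μ → ∃ (l' : ℂ) (a b : ℂ → ℂ), WD univ (nq μ) a b ∧ (∀ z, b z = μ z * a z) ∧
    Complex.exp l' = nq μ (Complex.exp l) ∧
    (∀ ξ, nq μ (Complex.exp l * ξ) = Complex.exp l' * nq μ ξ) ∧ 0 < l'.re ∧
    IntegrableOn (fun ξ => ‖a ξ‖ ^ 2 / ‖nq μ ξ‖ ^ 2) (ann l) ∧
    (1 - k ^ 2) * ∫ ξ in ann l, ‖a ξ‖ ^ 2 / ‖nq μ ξ‖ ^ 2 ≤ 2 * Real.pi * l'.re ∧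
    Real.pi * (l' - l) = ∫ ξ in ann l, b ξ / (nq μ ξ * ξ) ∧
    Real.pi * (l' - l) + 2 * Real.pi * l.re = ∫ ξ in ann l, a ξ / (nq μ ξ * conj ξ)

/-- conclusion of STK -/
def Stokes : Prop := ∀ k, 0 ≤ k → k < 1 → ∀ μ, Bel k μ → ∀ l : ℂ,
  0 < l.re → InvL l μ → ∃ (l' : ℂ) (a b : ℂ → ℂ), WD univ (nq μ) a b ∧ (∀ z, b z = μ z * a z) ∧
    Complex.exp l' = nq μ (Complex.exp l) ∧
    (∀ ξ, nq μ (Complex.exp l * ξ) = Complex.exp l' * nq μ ξ) ∧ 0 < l'.re ∧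
    IntegrableOn (fun ξ => ‖a ξ‖ ^ 2 / ‖nq μ ξ‖ ^ 2) (ann l) ∧
    (1 - k ^ 2) * ∫ ξ in ann l, ‖a ξ‖ ^ 2 / ‖nq μ ξ‖ ^ 2 ≤ 2 * Real.pi * l'.re ∧
    Real.pi * (l' - l) = ∫ ξ in ann l, b ξ / (nq μ ξ * ξ) ∧
    Real.pi * (l' - l) + 2 * Real.pi * l.re = ∫ ξ in ann l, a ξ / (nq μ ξ * conj ξ)

/-- STI (about 80 lines).  Torus inequality.  Proof: from Stokes, `π‖l' - l‖ ≤ ∫ (‖μ‖/‖ξ‖)(‖a‖/‖w‖) ≤ (∫ ‖μ‖²/‖ξ‖²)^{1/2} (∫ ‖a‖²/‖w‖²)^{1/2}` (Cauchy-Schwarz on `ann l`), and the last integral is at most `2π Re l'/(1-k²)`.  Hypotheses: none. -/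
def StSTI : Prop := Stokes → ∀ k, 0 ≤ k → k < 1 → ∀ μ, Bel k μ → ∀ l : ℂ, 0 < l.re → InvL l μ →
  ∃ l' : ℂ, Complex.exp l' = nq μ (Complex.exp l) ∧
    (∀ ξ, nq μ (Complex.exp l * ξ) = Complex.exp l' * nq μ ξ) ∧ 0 < l'.re ∧
    Real.pi * (1 - k ^ 2) * ‖l' - l‖ ^ 2 ≤ 2 * l'.re * ∫ ξ in ann l, ‖μ ξ‖ ^ 2 / ‖ξ‖ ^ 2

/-- FVM (about 250 lines).  First variation of the multiplier.  Proof.  For `‖t‖ ≤ 1/2`, `Bel ‖t‖ (t μ)`; Stokes with `k = ‖t‖`: `l_t`, `a_t`, `b_t = t μ a_t`, `w_t = nq (t μ)`.  As `t → 0`: `w_t → id` (StNID), so `e^{l_t} → e^l`; STI: `‖l_t - l‖² ≤ C Re(l_t) ‖t‖²` and `Re l_t = log‖w_t(e^l)‖` is bounded, so `l_t → l`, `‖l_t - l‖ ≤ C‖t‖`.  `X_t = a_t/w_t - 1/ξ` on `ann l`: `∫ ‖X_t‖² = ∫ ‖a_t/w_t‖² - 2 Re ∫ (a_t/w_t)/conj ξ + ∫ 1/‖ξ‖² ≤ 2π Re l_t/(1-‖t‖²) - 2 Re(π(l_t - l) + 2π Re l) + 2π Re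 l → 0`.  So `(l_t - l)/t = π⁻¹ ∫_{ann} μ (a_t/w_t)/ξ → π⁻¹ ∫_{ann} μ/ξ²` (Cauchy-Schwarz for the difference), i.e. `t ↦ l_t` has this derivative at `0` (`l_0 = l`), and `nq (t μ)(e^l) = e^{l_t}`.  Hypotheses: none. -/
def StFVM : Prop := Stokes → StNID → StEX → ∀ μ : ℂ → ℂ, Bel 1 μ → ∀ l : ℂ, 0 < l.re → InvL l μ →
  HasDerivAt (fun t : ℂ => nq (fun y => t * μ y) (Complex.exp l))
    (Complex.exp l * ((Real.pi : ℂ)⁻¹ * ∫ ξ in ann l, μ ξ / ξ ^ 2)) 0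

/-- the coordinate `(ξ - a)/(ξ - b)` -/
noncomputable def crd (a b ξ : ℂ) : ℂ := (ξ - a) / (ξ - b)

/-- the coefficient in the coordinate `η = (ξ - a)/(ξ - b)`, `ξ = (b η - a)/(η - 1)` -/
noncomputable def muT (a b : ℂ) (μ : ℂ → ℂ) (η : ℂ) : ℂ :=
  μ ((b * η - a) / (η - 1)) * ((conj (a - b) / (a - b)) * ((η - 1) ^ 2 / conj (η - 1) ^ 2))

/-- SPH (about 250 lines).  Change of normalisation.  Proof: `w = nq μ`, `T ξ = (ξ-a)/(ξ-b)`, `S η = (bη - a)/(η - 1)` its inverse, `S' = (a-b)/(η-1)²`.  `muT a b μ` is measurable, bounded by `k` (at `η = 1`, Lean's division gives `0`).  Define `v η = (w(S η) - w a)/(w(S η) - w b)` for `η ≠ 1` and `v 1 = 1`: `v` is a bijection of `ℂ` (`S` maps `ℂ \ {1}` bijectively onto `ℂ \ {b}`), continuous at `η ≠ 1` (`w (S η) ≠ w b`) and at `1` (`S η → ∞`, `w → ∞`), and so is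 its inverse (same form), so it is a homeomorphism; `v 0 = 0` (`S 0 = a`), `v 1 = 1`.  On `V = {1}ᶜ`: `w ∘ S` solves the equation with coefficient `muT a b μ` (StPRE with `φ = S`, `S'` as above), and `v = g ∘ (w ∘ S)` with `g x = (x - w a)/(x - w b)` holomorphic on `{w b}ᶜ` (StPOS).  StUNI with the finite set `{1}`: `v = nq (muT a b μ)`.  For `ξ ≠ b`, `T ξ ≠ 1` and `S (T ξ) = ξ`.  Hypotheses: none. -/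
def StSPH : Prop := StEX → StUNI → StPRE → StPOS → ∀ k < 1, ∀ μ, Bel k μ → ∀ a b : ℂ, a ≠ b →
  Bel k (muT a b μ) ∧ ∀ ξ, ξ ≠ b →
    nq (muT a b μ) (crd a b ξ) = (nq μ ξ - nq μ a) / (nq μ ξ - nq μ b)

/-- conclusion of SPH -/
def Sphere : Prop := ∀ k < 1, ∀ μ, Bel k μ → ∀ a b : ℂ, a ≠ b →
  Bel k (muT a b μ) ∧ ∀ ξ, ξ ≠ b →
    nq (muT a b μ) (crd a b ξ) = (nq μ ξ - nq μ a) / (nq μ ξ - nq μ b)

/-- `A` has the fixed points `a ≠ b` and in the coordinate `(ξ-a)/(ξ-b)` it is multiplication by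
`e^l` (so `a` is repelling and `b` attracting if `Re l > 0`) -/
def Mult (A : SL) (a b l : ℂ) : Prop :=
  a ≠ b ∧ den A a ≠ 0 ∧ mob A a = a ∧ den A b ≠ 0 ∧ mob A b = b ∧
  ∀ ξ, ξ ≠ b → den A ξ ≠ 0 → crd a b (mob A ξ) = Complex.exp l * crd a b ξ

/-- MTR (about 120 lines).  Multiplier and trace.  Proof: `den A b = λ` satisfies `mob A b = b`; the eigenvalues of `A` are `den A a`, `den A b` (eigenvectors `(a,1)`, `(b,1)`), product `1`, sum `tr A`; `crd (mob A ξ) = crd ξ · den A b/den A a` (computation with `mob A ξ - mob A a = (ξ-a)/(den A ξ den A a)`), so `e^l = den A b/den A a = (den A b)²`, and `(tr A)² = (λ + λ⁻¹)² = e^l + 2 + e^{-l}`.  Conversely for a matrix with `(tr A)² = e^l + 2 + e^{-l}`, `e^l ≠ 1` and `A 1 0 ≠ 0` there are such `a, b`: the roots of `A₁₀ ξ² + (A₁₁ - A₀₀) ξ - A₀₁`, in the right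 order.  Hypotheses: none. -/
def StMTR : Prop :=
  (∀ (A : SL) (a b l : ℂ), Mult A a b l → (A 0 0 + A 1 1) ^ 2 = Complex.exp l + 2 + Complex.exp (-l)) ∧
  (∀ (A : SL) (l : ℂ), A 1 0 ≠ 0 → Complex.exp l ≠ 1 →
    (A 0 0 + A 1 1) ^ 2 = Complex.exp l + 2 + Complex.exp (-l) → ∃ a b, Mult A a b l)

/-- TOR (about 250 lines).  The torus inequality for a general element.  Proof: `ν = muT a b μ`, Sphere.  InvB for `A` gives `InvL l ν`: in the coordinate `η = T ξ`, `T ∘ A = e^l T`; differentiate `T (mob A ξ) = e^l T ξ` and use the transformation rule of `ν` (a.e.; `T`, `S` preserve null sets).  StSTI for `ν`: `l'`, `nq ν (e^l η) = e^{l'} nq ν η`.  With `η = T ξ`, `ξ ≠ b`, `den A ξ ≠ 0` (so `mob A ξ ≠ b`): `crd (w a) (w b) (w (mob A ξ)) = nq ν (T (mob A ξ)) = e^{l'} crd (w a) (w b) (w ξ)`, and `w (mob A ξ)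 = mob B (w ξ)` (Intw): `Mult B (w a) (w b) l'` (`den B (w a) ≠ 0` by Intw etc.).  Integral: change of variables `η = T ξ` (`T' = (a-b)/(ξ-b)²`): `∫_{ann l} ‖ν‖²/‖η‖² dη = ∫_F ‖μ‖² ‖T'‖²/‖T‖² dξ`, `‖T'‖²/‖T‖² = ‖a-b‖²/(‖ξ-a‖²‖ξ-b‖²)`.  Hypotheses: none. -/
def StTOR : Prop := Sphere → Stokes → StSTI → ∀ k, 0 ≤ k → k < 1 → ∀ μ, Bel k μ → ∀ (A B : SL) (a b l : ℂ), InvB A μ → Intw A B (nq μ) →
  Mult A a b l → 0 < l.re → ∃ l' : ℂ, Mult B (nq μ a) (nq μ b) l' ∧ 0 < l'.re ∧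
    Real.pi * (1 - k ^ 2) * ‖l' - l‖ ^ 2 ≤
      2 * l'.re * ∫ ξ in {ξ : ℂ | 1 ≤ ‖crd a b ξ‖ ∧ ‖crd a b ξ‖ < Real.exp l.re},
        ‖μ ξ‖ ^ 2 * (‖a - b‖ ^ 2 / (‖ξ - a‖ ^ 2 * ‖ξ - b‖ ^ 2))

end Pool.Agent.Helper68.QC
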